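import Mathlib

/-!
Hardy spaces of the circle, de Branges–Rovnyak spaces and their two capacities.

The unit circle is `AddCircle (2 * π)` (the point `x` stands for `e^{ix}`) with normalised
Lebesgue measure `m`. Functions of `H²` and `H^∞` are identified with their boundary functions.
-/

set_option autoImplicit false

open MeasureTheory
open scoped ENNReal InnerProductSpace

namespace Pool.Agent.H270R3.Cap

instance factTwoPi : Fact (0 < 2 * Real.pi) := ⟨Real.two_pi_pos⟩

/-- The unit circle. -/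
abbrev Circ : Type := AddCircle (2 * Real.pi)

/-- Normalised Lebesgue measure on the unit circle. -/
noncomputable abbrev m : Measure Circ := AddCircle.haarAddCircle

/-- `L²` of the circle. -/
abbrev L2 : Type := Lp ℂ 2 m

/-- `L^∞` of the circle. -/
abbrev Linf : Type := Lp ℂ ∞ m

/-- The `n`-th Fourier coefficient as a continuous functional on `L²`. -/
noncomputable def coefL (n : ℤ) : L2 →L[ℂ] ℂ := innerSL ℂ (fourierLp 2 n)

theorem coefL_apply (n : ℤ) (f : L2) : coefL n f = fourierCoeff f n := by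
  rw [← fourierBasis_repr, HilbertBasis.repr_apply_apply, coe_fourierBasis]
  rfl

/-- The Hardy space `H²`: the functions in `L²` whose Fourier coefficients of negative index
vanish. -/
noncomputable def H2 : Submodule ℂ L2 where
  carrier := {f | ∀ n : ℤ, n < 0 → fourierCoeff f n = 0}
  add_mem' {f g} hf hg n hn := by
    rw [← coefL_apply, map_add, coefL_apply, coefL_apply, hf n hn, hg n hn, add_zero]
  zero_mem' n _ := by rw [← coefL_apply, map_zero]
  smul_mem' c f hf n hn := by
    rw [← coefL_apply, map_smul, coefL_apply, hf n hn, smul_zero]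

theorem mem_H2 (f : L2) : f ∈ H2 ↔ ∀ n : ℤ, n < 0 → fourierCoeff f n = 0 := Iff.rfl

theorem H2_closed : IsClosed (H2 : Set L2) := by
  have : (H2 : Set L2) = ⋂ n : ℤ, ⋂ _ : n < 0, {f | coefL n f = 0} := by
    ext f
    simp only [SetLike.mem_coe, mem_H2, Set.mem_iInter, Set.mem_ofPred_eq, coefL_apply]
  rw [this]
  exact isClosed_iInter fun n => isClosed_iInter fun _ =>
    isClosed_eq (coefL n).continuous continuous_const

instance : CompleteSpace H2 := H2_closed.completeSpace_coe

/-- `b ∈ H^∞`: the Fourier coefficients of negative index of the bounded function `b` vanish. -/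
def IsHinf (b : Linf) : Prop := ∀ n : ℤ, n < 0 → fourierCoeff b n = 0

/-- Multiplication by the bounded function `b` on `L²`. -/
noncomputable def mulOp (b : Linf) : L2 →L[ℂ] L2 :=
  (ContinuousLinearMap.mul ℂ ℂ).holderL m ∞ 2 2 b

/-- The Toeplitz operator `T_b f = P_+(b f)` on `H²`. -/
noncomputable def toeplitz (b : Linf) : H2 →L[ℂ] H2 :=
  (Submodule.orthogonalProjectionOnto H2).comp ((mulOp b).comp H2.subtypeL)

/-- The positive square root of a positive operator on a Hilbert space. -/
noncomputable def opRoot {H : Type*} [NormedAddCommGroup H] [InnerProductSpace ℂ H]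
    [CompleteSpace H] (A : H →L[ℂ] H) : H →L[ℂ] H := CFC.sqrt A

/-- The operator `(I - T_b T_b^*)^{1/2}` on `H²`. -/
noncomputable def defectRoot (b : Linf) : H2 →L[ℂ] H2 :=
  opRoot (1 - toeplitz b * ContinuousLinearMap.adjoint (toeplitz b))

/-- The square of the norm of `f` in the de Branges–Rovnyak space
`H(b) = (I - T_b T_b^*)^{1/2} H²`: it is `‖g‖²` for the `g` orthogonal to the kernel of
`(I - T_b T_b^*)^{1/2}` with `(I - T_b T_b^*)^{1/2} g = f`, and `∞` if `f` is not in `H(b)`. -/
noncomputable def normSq (b : Linf) (f : H2) : ℝ≥0∞ :=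
  ⨅ (g : H2) (_ : g ∈ (LinearMap.ker (defectRoot b).toLinearMap)ᗮ ∧ defectRoot b g = f),
    ENNReal.ofReal (‖g‖ ^ 2)

/-- The capacity `c_{b,1}(E) = inf {‖f‖²_{H(b)} : |f| ≥ 1 a.e. on some open U ⊇ E}`. -/
noncomputable def cap1 (b : Linf) (E : Set Circ) : ℝ≥0∞ :=
  ⨅ (f : H2) (_ : ∃ U : Set Circ, IsOpen U ∧ E ⊆ U ∧ ∀ᵐ x ∂m, x ∈ U → 1 ≤ ‖(f : L2) x‖),
    normSq b f

/-- The capacity `c_{b,2}(E) = inf {‖f‖²_{H(b)} : |f| = 1 a.e. on some open U ⊇ E}`. -/
noncomputable def cap2 (b : Linf) (E : Set Circ) : ℝ≥0∞ :=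
  ⨅ (f : H2) (_ : ∃ U : Set Circ, IsOpen U ∧ E ⊆ U ∧ ∀ᵐ x ∂m, x ∈ U → ‖(f : L2) x‖ = 1),
    normSq b f

end Pool.Agent.H270R3.Cap
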