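import Mathlib
import Pool.Agent.H270R3.Cap.Defs

/-!
Operator theory of `(I - T T^*)^{1/2}` for a contraction `T`.
-/

set_option autoImplicit false

open MeasureTheory
open scoped ENNReal InnerProductSpace

namespace Pool.Agent.H270R3.Cap

section abstract

variable {H : Type*} [NormedAddCommGroup H] [InnerProductSpace ℂ H] [CompleteSpace H]

theorem opRoot_mul (A : H →L[ℂ] H) (hA : 0 ≤ A) : opRoot A * opRoot A = A :=
  CFC.sqrt_mul_sqrt_self A hA

theorem opRoot_nonneg (A : H →L[ℂ] H) : 0 ≤ opRoot A := CFC.sqrt_nonneg A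

theorem opRoot_adjoint (A : H →L[ℂ] H) : ContinuousLinearMap.adjoint (opRoot A) = opRoot A :=
  ContinuousLinearMap.isSelfAdjoint_iff'.1 (IsSelfAdjoint.of_nonneg (opRoot_nonneg A))

theorem opRoot_inner (A : H →L[ℂ] H) (x y : H) : ⟪opRoot A x, y⟫_ℂ = ⟪x, opRoot A y⟫_ℂ := by
  conv_lhs => rw [← opRoot_adjoint A]
  rw [ContinuousLinearMap.adjoint_inner_left]

variable (T : H →L[ℂ] H)

theorem norm_adj_sq (x : H) : ⟪(1 - T * ContinuousLinearMap.adjoint T) x, x⟫_ℂ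
    = ((‖x‖ ^ 2 - ‖ContinuousLinearMap.adjoint T x‖ ^ 2 : ℝ) : ℂ) := by
  rw [ContinuousLinearMap.sub_apply, inner_sub_left, ContinuousLinearMap.mul_apply,
    ← ContinuousLinearMap.adjoint_inner_right T]
  rw [ContinuousLinearMap.one_apply, inner_self_eq_norm_sq_to_K, inner_self_eq_norm_sq_to_K]
  push_cast
  rfl

theorem defect_nonneg (hT : ‖T‖ ≤ 1) : 0 ≤ 1 - T * ContinuousLinearMap.adjoint T := by
  rw [ContinuousLinearMap.nonneg_iff_isPositive]
  have hsa : IsSelfAdjoint (1 - T * ContinuousLinearMap.adjoint T) := by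
    have h1 : IsSelfAdjoint (T * star T) := IsSelfAdjoint.mul_star_self T
    exact (IsSelfAdjoint.one _).sub h1
  refine ContinuousLinearMap.isPositive_def.2 ⟨?_, fun x => ?_⟩
  · exact ContinuousLinearMap.isSelfAdjoint_iff_isSymmetric.1 hsa
  · rw [ContinuousLinearMap.reApplyInnerSelf_apply, norm_adj_sq]
    have h1 : ‖ContinuousLinearMap.adjoint T x‖ ≤ ‖x‖ := by
      refine (ContinuousLinearMap.le_opNorm _ _).trans ?_
      rw [LinearIsometryEquiv.norm_map]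
      exact mul_le_of_le_one_left (norm_nonneg _) hT
    have h2 := pow_le_pow_left₀ (norm_nonneg _) h1 2
    have h3 : RCLike.re ((‖x‖ ^ 2 - ‖ContinuousLinearMap.adjoint T x‖ ^ 2 : ℝ) : ℂ)
        = ‖x‖ ^ 2 - ‖ContinuousLinearMap.adjoint T x‖ ^ 2 := Complex.ofReal_re _
    rw [h3]
    linarith

variable {T}

theorem root_norm_sq (hT : ‖T‖ ≤ 1) (x : H) :
    ‖opRoot (1 - T * ContinuousLinearMap.adjoint T) x‖ ^ 2
      = ‖x‖ ^ 2 - ‖ContinuousLinearMap.adjoint T x‖ ^ 2 := by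
  set A := opRoot (1 - T * ContinuousLinearMap.adjoint T) with hA
  have h1 : A * A = 1 - T * ContinuousLinearMap.adjoint T := opRoot_mul _ (defect_nonneg T hT)
  have h2 : ⟪A x, A x⟫_ℂ = ((‖x‖ ^ 2 - ‖ContinuousLinearMap.adjoint T x‖ ^ 2 : ℝ) : ℂ) := by
    have e1 := opRoot_inner (1 - T * ContinuousLinearMap.adjoint T) (A x) x
    rw [← norm_adj_sq, ← h1, ContinuousLinearMap.mul_apply]
    exact e1.symm
  rw [inner_self_eq_norm_sq_to_K] at h2
  apply Complex.ofReal_injective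
  rw [← h2]
  push_cast
  rfl

/-- upper estimate for the range norm -/
theorem root_upper (hT : ‖T‖ ≤ 1) (g : H) :
    ∃ g' ∈ (LinearMap.ker (opRoot (1 - T * ContinuousLinearMap.adjoint T)).toLinearMap)ᗮ,
      opRoot (1 - T * ContinuousLinearMap.adjoint T) g'
        = g - T (ContinuousLinearMap.adjoint T g) ∧ ‖g'‖ ≤ ‖g‖ := by
  set A := opRoot (1 - T * ContinuousLinearMap.adjoint T) with hA
  refine ⟨A g, ?_, ?_, ?_⟩
  · rw [Submodule.mem_orthogonal]
    intro u hu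
    have hu' : A u = 0 := hu
    rw [hA, ← opRoot_inner, ← hA, hu', inner_zero_left]
  · have h1 : A * A = 1 - T * ContinuousLinearMap.adjoint T := opRoot_mul _ (defect_nonneg T hT)
    have h2 := congrArg (fun B : H →L[ℂ] H => B g) h1
    simpa using h2
  · have h1 := root_norm_sq hT g
    rw [← hA] at h1
    have h2 : ‖A g‖ ^ 2 ≤ ‖g‖ ^ 2 := by rw [h1]; nlinarith [sq_nonneg ‖ContinuousLinearMap.adjoint T g‖]
    exact (pow_le_pow_iff_left₀ (norm_nonneg _) (norm_nonneg _) two_ne_zero).1 h2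

theorem root_norm_le (hT : ‖T‖ ≤ 1) (g : H) :
    ‖opRoot (1 - T * ContinuousLinearMap.adjoint T) g‖ ≤ ‖g‖ := by
  have h1 := root_norm_sq hT g
  have h2 : ‖opRoot (1 - T * ContinuousLinearMap.adjoint T) g‖ ^ 2 ≤ ‖g‖ ^ 2 := by
    rw [h1]; nlinarith [sq_nonneg ‖ContinuousLinearMap.adjoint T g‖]
  exact (pow_le_pow_iff_left₀ (norm_nonneg _) (norm_nonneg _) two_ne_zero).1 h2

/-- the basic lower estimate -/
theorem root_lower (hT : ‖T‖ ≤ 1) (g h : H) :
    ‖⟪T h, opRoot (1 - T * ContinuousLinearMap.adjoint T) g⟫_ℂ‖ ^ 2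
      ≤ ‖g‖ ^ 2 * (‖h‖ ^ 2 - ‖T h‖ ^ 2) := by
  set A := opRoot (1 - T * ContinuousLinearMap.adjoint T) with hA
  have h1 : ⟪T h, A g⟫_ℂ = ⟪A (T h), g⟫_ℂ := by rw [hA, opRoot_inner]
  have h2 : ‖⟪T h, A g⟫_ℂ‖ ≤ ‖A (T h)‖ * ‖g‖ := by rw [h1]; exact norm_inner_le_norm _ _
  have h3 : ‖A (T h)‖ ^ 2 = ‖T h‖ ^ 2 - ‖ContinuousLinearMap.adjoint T (T h)‖ ^ 2 :=
    root_norm_sq hT (T h)
  have h4 : ‖T h‖ ^ 2 ≤ ‖h‖ * ‖ContinuousLinearMap.adjoint T (T h)‖ := by
    have h5 : ⟪h, ContinuousLinearMap.adjoint T (T h)⟫_ℂ = ((‖T h‖ ^ 2 : ℝ) : ℂ) := by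
      rw [ContinuousLinearMap.adjoint_inner_right, inner_self_eq_norm_sq_to_K]
      push_cast; rfl
    have h6 := norm_inner_le_norm (𝕜 := ℂ) h (ContinuousLinearMap.adjoint T (T h))
    rw [h5, Complex.norm_real, Real.norm_of_nonneg (by positivity)] at h6
    exact h6
  have h5 : ‖T h‖ ≤ ‖h‖ :=
    (T.le_opNorm h).trans (mul_le_of_le_one_left (norm_nonneg _) hT)
  have h6 : ‖A (T h)‖ ^ 2 ≤ ‖h‖ ^ 2 - ‖T h‖ ^ 2 := by
    rw [h3]
    have hn := norm_nonneg h
    have ht := norm_nonneg (T h)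
    have hw := norm_nonneg (ContinuousLinearMap.adjoint T (T h))
    set a := ‖h‖
    set t := ‖T h‖
    set w := ‖ContinuousLinearMap.adjoint T (T h)‖
    -- `2 t² ≤ 2 a w ≤ a² + w²`
    nlinarith [sq_nonneg (a - w)]
  calc ‖⟪T h, A g⟫_ℂ‖ ^ 2 ≤ (‖A (T h)‖ * ‖g‖) ^ 2 := pow_le_pow_left₀ (norm_nonneg _) h2 2
    _ = ‖g‖ ^ 2 * ‖A (T h)‖ ^ 2 := by ring
    _ ≤ _ := mul_le_mul_of_nonneg_left h6 (by positivity)

end abstract

/-! ### Multiplication operators -/

theorem mulOp_ae (b : Linf) (f : L2) : mulOp b f =ᵐ[m] fun x => b x * f x := by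
  have h := ContinuousLinearMap.coeFn_holder (r := 2) (ContinuousLinearMap.mul ℂ ℂ) b f
  exact h

theorem mulOp_norm (b : Linf) (f : L2) : ‖mulOp b f‖ ≤ ‖b‖ * ‖f‖ := by
  have h := ContinuousLinearMap.norm_holder_apply_apply_le (r := 2) (ContinuousLinearMap.mul ℂ ℂ) b f
  refine h.trans ?_
  have h1 : ‖ContinuousLinearMap.mul ℂ ℂ‖ ≤ 1 := ContinuousLinearMap.opNorm_mul_le ℂ ℂ
  have h2 := mul_le_mul_of_nonneg_right h1 (norm_nonneg b)
  exact mul_le_mul_of_nonneg_right (by linarith) (norm_nonneg f)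

theorem fourierLp_ae (n : ℤ) : (fourierLp 2 n : L2) =ᵐ[m] fourier n := coeFn_fourierLp 2 n

theorem coefL_mulOp_fourier (b : Linf) (n k : ℤ) :
    coefL n (mulOp b (fourierLp 2 k)) = fourierCoeff b (n - k) := by
  rw [coefL_apply]
  unfold fourierCoeff
  refine integral_congr_ae ?_
  filter_upwards [mulOp_ae b (fourierLp 2 k), fourierLp_ae k] with x h1 h2
  rw [h1, h2, smul_eq_mul, smul_eq_mul]
  have h3 : fourier (-(n - k)) x = fourier (-n) x * (fourier k x : ℂ) := by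
    rw [← fourier_add]; congr 1; ring
  rw [h3]; ring

theorem mulOp_mem {b : Linf} (hb : IsHinf b) {f : L2} (hf : f ∈ H2) : mulOp b f ∈ H2 := by
  rw [mem_H2]
  intro n hn
  rw [← coefL_apply]
  have h1 := hasSum_fourier_series_L2 f
  have h2 := ((coefL n).comp (mulOp b)).hasSum h1
  have h3 : ∀ k : ℤ, ((coefL n).comp (mulOp b)) (fourierCoeff f k • fourierLp 2 k) = 0 := by
    intro k
    rw [map_smul, ContinuousLinearMap.comp_apply, coefL_mulOp_fourier]
    by_cases hk : k < 0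
    · rw [hf k hk, zero_smul]
    · rw [hb _ (by omega), smul_zero]
  simp only [h3] at h2
  exact h2.unique hasSum_zero

theorem toeplitz_coe {b : Linf} (hb : IsHinf b) (f : H2) :
    (toeplitz b f : L2) = mulOp b f := by
  have h := Submodule.orthogonalProjectionOnto_mem_subspace_eq_self
    (⟨mulOp b f, mulOp_mem hb f.2⟩ : H2)
  have h2 := congrArg Subtype.val h
  exact h2

theorem toeplitz_norm {b : Linf} (hb : ‖b‖ ≤ 1) : ‖toeplitz b‖ ≤ 1 := by
  refine ContinuousLinearMap.opNorm_le_bound _ zero_le_one fun f => ?_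
  rw [one_mul]
  have h1 : toeplitz b f = H2.orthogonalProjectionOnto (mulOp b (f : L2)) := rfl
  have h2 : ‖H2.orthogonalProjectionOnto (mulOp b (f : L2))‖ ≤ ‖mulOp b (f : L2)‖ :=
    Submodule.norm_orthogonalProjectionOnto_apply_le H2 _
  have h3 := mulOp_norm b (f : L2)
  rw [h1]
  refine h2.trans (h3.trans ?_)
  exact mul_le_of_le_one_left (norm_nonneg _) hb

end Pool.Agent.H270R3.Cap
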