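import Mathlib
import Pool.Agent.H270R3.Cap.Op

/-!
Szegő kernels, Poisson kernels, point evaluations.
-/

set_option autoImplicit false

open MeasureTheory
open scoped ENNReal InnerProductSpace ComplexConjugate

namespace Pool.Agent.H270R3.Cap

theorem hs_congr {E : Type*} [AddCommMonoid E] [TopologicalSpace E] {f g : ℕ → E} {a : E}
    (hf : HasSum f a) (h : ∀ n, f n = g n) : HasSum g a := by
  rwa [funext h] at hf

/-- the coordinate function `e^{ix}` -/
noncomputable def zf : C(Circ, ℂ) := fourier 1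

theorem zf_norm (x : Circ) : ‖zf x‖ = 1 := by
  show ‖fourier 1 x‖ = 1
  rw [fourier_one]; exact Circle.norm_coe _

theorem zf_conj_mul (x : Circ) : conj (zf x) * zf x = 1 := by
  rw [mul_comm, Complex.mul_conj, Complex.normSq_eq_norm_sq, zf_norm]
  norm_num

theorem zf_pow (n : ℕ) : zf ^ n = (fourier (n : ℤ) : C(Circ, ℂ)) := by
  induction n with
  | zero => ext x; simp
  | succ n ih =>
    rw [pow_succ, ih]; ext x
    push_cast
    rw [fourier_add]
    rfl

theorem zf_norm' : ‖zf‖ = 1 := fourier_norm 1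

/-- the embedding of continuous functions -/
noncomputable def cL : C(Circ, ℂ) →L[ℂ] L2 := ContinuousMap.toLp 2 m ℂ

theorem cL_ae (f : C(Circ, ℂ)) : cL f =ᵐ[m] f := ContinuousMap.coeFn_toLp m f

theorem cL_fourier (n : ℤ) : cL (fourier n) = fourierLp 2 n := rfl

theorem geom_summable {w : ℂ} (hw : ‖w‖ < 1) : Summable fun n : ℕ => (conj w • zf) ^ n := by
  apply summable_geometric_of_norm_lt_one
  rw [norm_smul, zf_norm', mul_one, RCLike.norm_conj]
  exact hw

/-- the Szegő kernel as a continuous function on the circle -/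
noncomputable def kM (w : ℂ) : C(Circ, ℂ) := ∑' n : ℕ, (conj w • zf) ^ n

theorem kM_hasSum {w : ℂ} (hw : ‖w‖ < 1) : HasSum (fun n : ℕ => (conj w • zf) ^ n) (kM w) :=
  (geom_summable hw).hasSum

theorem kM_apply {w : ℂ} (hw : ‖w‖ < 1) (x : Circ) : kM w x = (1 - conj w * zf x)⁻¹ := by
  have h1 : HasSum (fun n : ℕ => ((conj w • zf) ^ n : C(Circ, ℂ)) x) (kM w x) :=
    ContinuousMap.hasSum_apply (kM_hasSum hw) x
  have h2 : HasSum (fun n : ℕ => (conj w * zf x) ^ n) (1 - conj w * zf x)⁻¹ := by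
    apply hasSum_geometric_of_norm_lt_one
    rw [norm_mul, zf_norm, mul_one, RCLike.norm_conj]
    exact hw
  have h3 : (fun n : ℕ => ((conj w • zf) ^ n : C(Circ, ℂ)) x) = fun n : ℕ => (conj w * zf x) ^ n := by
    ext n; simp
  rw [h3] at h1
  exact h1.unique h2

theorem one_sub_ne {w : ℂ} (hw : ‖w‖ < 1) (x : Circ) : 1 - conj w * zf x ≠ 0 := by
  intro h
  have h1 : conj w * zf x = 1 := (sub_eq_zero.1 h).symm
  have h2 := congrArg (fun z => ‖z‖) h1
  simp only [norm_mul, zf_norm, mul_one, RCLike.norm_conj, norm_one] at h2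
  linarith

/-- the Szegő kernel in `L²` -/
noncomputable def kL (w : ℂ) : L2 := cL (kM w)

theorem kL_hasSum {w : ℂ} (hw : ‖w‖ < 1) :
    HasSum (fun n : ℕ => (conj w) ^ n • (fourierLp 2 (n : ℤ) : L2)) (kL w) := by
  have h1 := cL.hasSum (kM_hasSum hw)
  refine hs_congr h1 fun n => ?_
  rw [smul_pow, map_smul, zf_pow]
  rfl

/-- evaluation at `w` -/
noncomputable def ev (w : ℂ) : L2 →L[ℂ] ℂ := innerSL ℂ (kL w)

theorem ev_apply (w : ℂ) (f : L2) : ev w f = ⟪kL w, f⟫_ℂ := rfl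

theorem inner_fourier (n k : ℤ) : ⟪(fourierLp 2 n : L2), fourierLp 2 k⟫_ℂ = if n = k then 1 else 0 := by
  have h := orthonormal_iff_ite.1 (orthonormal_fourier (T := 2 * Real.pi)) n k
  exact h

theorem ev_fourier {w : ℂ} (hw : ‖w‖ < 1) (n : ℕ) : ev w (fourierLp 2 (n : ℤ)) = w ^ n := by
  have h1 := (innerSL ℂ (fourierLp 2 (n : ℤ) : L2)).hasSum (kL_hasSum hw)
  have h2 : HasSum (fun k : ℕ => if k = n then conj w ^ n else 0)
      (⟪(fourierLp 2 (n : ℤ) : L2), kL w⟫_ℂ) := by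
    refine hs_congr h1 fun k => ?_
    rw [map_smul, innerSL_apply_apply, inner_fourier, smul_eq_mul]
    by_cases hk : k = n
    · subst hk; simp
    · rw [if_neg hk, if_neg (by omega), mul_zero]
  have h3 : ⟪(fourierLp 2 (n : ℤ) : L2), kL w⟫_ℂ = conj w ^ n :=
    h2.unique (hasSum_ite_eq n _)
  rw [ev_apply, ← inner_conj_symm, h3, map_pow, Complex.conj_conj]

theorem H2_hasSum {X : L2} (hX : X ∈ H2) :
    HasSum (fun n : ℕ => fourierCoeff X (n : ℤ) • (fourierLp 2 (n : ℤ) : L2)) X := by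
  have h1 := hasSum_fourier_series_L2 X
  have hinj : Function.Injective (fun n : ℕ => (n : ℤ)) := Nat.cast_injective
  refine (Function.Injective.hasSum_iff hinj ?_).2 h1
  intro k hk
  have hk' : k < 0 := by
    by_contra h
    push Not at h
    exact hk ⟨k.toNat, Int.toNat_of_nonneg h⟩
  rw [hX k hk', zero_smul]

theorem ev_hasSum {w : ℂ} (hw : ‖w‖ < 1) {X : L2} (hX : X ∈ H2) :
    HasSum (fun n : ℕ => fourierCoeff X (n : ℤ) * w ^ n) (ev w X) := by
  have h1 := (ev w).hasSum (H2_hasSum hX)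
  refine hs_congr h1 fun n => ?_
  rw [map_smul, ev_fourier hw, smul_eq_mul]

/-! the Poisson kernel -/

/-- the Poisson kernel -/
noncomputable def pk (w : ℂ) (x : Circ) : ℝ := (1 - ‖w‖ ^ 2) * ‖kM w x‖ ^ 2

theorem pk_eq {w : ℂ} (hw : ‖w‖ < 1) (x : Circ) :
    ((pk w x : ℝ) : ℂ) = kM w x + conj (kM w x) - 1 := by
  unfold pk
  have h0 := one_sub_ne hw x
  have h1 : (1 - w * conj (zf x)) ≠ 0 := by
    intro h
    apply h0
    have := congrArg conj h
    simpa using this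
  have e1 : ((‖kM w x‖ ^ 2 : ℝ) : ℂ) = kM w x * conj (kM w x) := by
    rw [Complex.mul_conj, Complex.normSq_eq_norm_sq]
  have e2 : ((‖w‖ ^ 2 : ℝ) : ℂ) = w * conj w := by
    rw [Complex.mul_conj, Complex.normSq_eq_norm_sq]
  rw [Complex.ofReal_mul, e1, Complex.ofReal_sub, e2, kM_apply hw, map_inv₀, map_sub, map_mul,
    Complex.conj_conj, map_one, Complex.ofReal_one]
  have e3 := zf_conj_mul x
  field_simp
  linear_combination (w * conj w) * e3

theorem pk_nonneg {w : ℂ} (hw : ‖w‖ < 1) (x : Circ) : 0 ≤ pk w x := by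
  unfold pk
  have : ‖w‖ ^ 2 < 1 := by
    have := norm_nonneg w
    nlinarith
  have h2 : 0 ≤ 1 - ‖w‖ ^ 2 := by linarith
  positivity

theorem pk_continuous (w : ℂ) : Continuous (pk w) := by
  unfold pk
  exact continuous_const.mul ((kM w).continuous.norm.pow 2)

theorem pk_formula {w : ℂ} (hw : ‖w‖ < 1) (x : Circ) :
    pk w x = (1 - ‖w‖ ^ 2) / ‖1 - conj w * zf x‖ ^ 2 := by
  unfold pk
  rw [kM_apply hw, norm_inv, inv_pow, div_eq_mul_inv]

theorem kM_le {w : ℂ} (hw : ‖w‖ < 1) (x : Circ) : ‖kM w x‖ ≤ 1 / (1 - ‖w‖) := by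
  rw [kM_apply hw, norm_inv, one_div]
  apply inv_anti₀ (by linarith)
  have h1 := norm_sub_norm_le (1 : ℂ) (conj w * zf x)
  rw [norm_mul, zf_norm, mul_one, RCLike.norm_conj, norm_one] at h1
  exact h1

theorem pk_le {w : ℂ} (hw : ‖w‖ < 1) (x : Circ) : pk w x ≤ 2 / (1 - ‖w‖) := by
  unfold pk
  have h1 := kM_le hw x
  have h0 := norm_nonneg w
  have h2 : 0 < 1 - ‖w‖ := by linarith
  have h3 : ‖kM w x‖ ^ 2 ≤ (1 / (1 - ‖w‖)) ^ 2 := pow_le_pow_left₀ (norm_nonneg _) h1 2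
  have h4 : 1 - ‖w‖ ^ 2 = (1 - ‖w‖) * (1 + ‖w‖) := by ring
  calc (1 - ‖w‖ ^ 2) * ‖kM w x‖ ^ 2 ≤ (1 - ‖w‖ ^ 2) * (1 / (1 - ‖w‖)) ^ 2 := by
        apply mul_le_mul_of_nonneg_left h3
        rw [h4]; positivity
    _ = (1 + ‖w‖) / (1 - ‖w‖) := by rw [h4]; field_simp
    _ ≤ 2 / (1 - ‖w‖) := by
        apply div_le_div_of_nonneg_right _ h2.le
        linarith

/-! integration against a fixed `L²` function as a functional -/

theorem int_mul_integrable {φ : Circ → ℂ} (hφ : MemLp φ 2 m) (X : L2) :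
    Integrable (fun x => φ x * X x) m := by
  have h := MemLp.integrable_mul hφ (Lp.memLp X)
  exact h

/-- `X ↦ ∫ φ X` -/
noncomputable def intL (φ : Circ → ℂ) (hφ : MemLp φ 2 m) : L2 →L[ℂ] ℂ :=
  innerSL ℂ (MemLp.toLp (fun x => conj (φ x)) (by
    refine MemLp.of_le hφ (Complex.continuous_conj.comp_aestronglyMeasurable hφ.1) ?_
    exact Filter.Eventually.of_forall fun x => by rw [RCLike.norm_conj]))

theorem intL_apply (φ : Circ → ℂ) (hφ : MemLp φ 2 m) (X : L2) :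
    intL φ hφ X = ∫ x, φ x * X x ∂m := by
  unfold intL
  rw [innerSL_apply_apply, L2.inner_def]
  refine integral_congr_ae ?_
  have hc : MemLp (fun x => conj (φ x)) 2 m := by
    refine MemLp.of_le hφ (Complex.continuous_conj.comp_aestronglyMeasurable hφ.1) ?_
    exact Filter.Eventually.of_forall fun x => by rw [RCLike.norm_conj]
  filter_upwards [hc.coeFn_toLp] with x hx
  rw [hx, RCLike.inner_apply, RCLike.conj_conj, mul_comm]

theorem H2_int_hasSum {X : L2} (hX : X ∈ H2) (φ : Circ → ℂ) (hφ : MemLp φ 2 m) :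
    HasSum (fun n : ℕ => fourierCoeff X (n : ℤ) * ∫ x, φ x * zf x ^ n ∂m)
      (∫ x, φ x * X x ∂m) := by
  have h1 := (intL φ hφ).hasSum (H2_hasSum hX)
  rw [intL_apply] at h1
  refine hs_congr h1 fun n => ?_
  rw [map_smul, intL_apply, smul_eq_mul]
  congr 1
  refine integral_congr_ae ?_
  filter_upwards [fourierLp_ae (n : ℤ)] with x hx
  rw [hx, ← zf_pow, ContinuousMap.pow_apply]

theorem memLp_cont (f : C(Circ, ℂ)) : MemLp f 2 m :=
  (Lp.memLp (cL f)).ae_eq (cL_ae f)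

theorem memLp_pk_mul (w : ℂ) {φ : Circ → ℂ} (hφ : MemLp φ 2 m) :
    MemLp (fun x => (pk w x : ℂ) * φ x) 2 m := by
  obtain ⟨C, hC⟩ := (isCompact_univ : IsCompact (Set.univ : Set Circ)).exists_bound_of_continuousOn
    (f := pk w) (pk_continuous w).continuousOn
  refine MemLp.of_le_mul (c := C) hφ ?_ (Filter.Eventually.of_forall fun x => ?_)
  · exact ((Complex.continuous_ofReal.comp (pk_continuous w)).aestronglyMeasurable).mul hφ.1
  · rw [norm_mul, Complex.norm_real]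
    exact mul_le_mul_of_nonneg_right (hC x (Set.mem_univ _)) (norm_nonneg _)

theorem int_zf (n : ℕ) : ∫ x, zf x ^ n ∂m = if n = 0 then 1 else 0 := by
  have h1 : ∫ x, zf x ^ n ∂m = ⟪(fourierLp 2 0 : L2), fourierLp 2 (n : ℤ)⟫_ℂ := by
    rw [L2.inner_def]
    refine integral_congr_ae ?_
    filter_upwards [fourierLp_ae (n : ℤ), fourierLp_ae 0] with x hx h0
    rw [hx, h0, ← zf_pow, ContinuousMap.pow_apply, RCLike.inner_apply, fourier_zero]
    simp
  rw [h1, inner_fourier]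
  by_cases hn : n = 0
  · simp [hn]
  · rw [if_neg hn, if_neg (by omega)]

theorem int_pk_pow {w : ℂ} (hw : ‖w‖ < 1) (n : ℕ) : ∫ x, (pk w x : ℂ) * zf x ^ n ∂m = w ^ n := by
  have hc : ∀ f : C(Circ, ℂ), Integrable (fun x => f x) m := fun f =>
    (memLp_cont f).integrable (by norm_num)
  have h1 : ∫ x, kM w x * zf x ^ n ∂m = if n = 0 then 1 else 0 := by
    have h2 := (innerSL ℂ (cL (star (zf ^ n)))).hasSum (kL_hasSum hw)
    have h3 : (innerSL ℂ (cL (star (zf ^ n)))) (kL w) = ∫ x, kM w x * zf x ^ n ∂m := by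
      rw [innerSL_apply_apply, L2.inner_def]
      refine integral_congr_ae ?_
      unfold kL
      filter_upwards [cL_ae (star (zf ^ n)), cL_ae (kM w)] with x hx h0
      rw [hx, h0, RCLike.inner_apply]
      simp
    rw [h3] at h2
    have h4 : HasSum (fun k : ℕ => if k = 0 then (if n = 0 then (1:ℂ) else 0) else 0)
        (∫ x, kM w x * zf x ^ n ∂m) := by
      refine hs_congr h2 fun k => ?_
      rw [map_smul, innerSL_apply_apply, L2.inner_def]
      have h5 : ∫ x, ⟪(cL (star (zf ^ n))) x, (fourierLp 2 (k : ℤ) : L2) x⟫_ℂ ∂m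
          = ∫ x, zf x ^ (k + n) ∂m := by
        refine integral_congr_ae ?_
        filter_upwards [cL_ae (star (zf ^ n)), fourierLp_ae (k : ℤ)] with x hx h0
        rw [hx, h0, ← zf_pow, RCLike.inner_apply]
        simp [pow_add]
      rw [h5, int_zf]
      by_cases hk : k = 0
      · subst hk; simp
      · rw [if_neg (by omega), if_neg hk, smul_zero]
    exact h4.unique (hasSum_ite_eq 0 _)
  have h2 : ∫ x, conj (kM w x) * zf x ^ n ∂m = w ^ n := by
    rw [← ev_fourier hw n, ev_apply, L2.inner_def]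
    refine integral_congr_ae ?_
    unfold kL
    filter_upwards [cL_ae (kM w), fourierLp_ae (n : ℤ)] with x hx h0
    rw [hx, h0, ← zf_pow, RCLike.inner_apply, ContinuousMap.pow_apply, mul_comm]
  have h3 : ∀ x, (pk w x : ℂ) * zf x ^ n
      = kM w x * zf x ^ n + conj (kM w x) * zf x ^ n - zf x ^ n := by
    intro x; rw [pk_eq hw]; ring
  have i1 : Integrable (fun x => kM w x * zf x ^ n) m := hc (kM w * zf ^ n)
  have i2 : Integrable (fun x => conj (kM w x) * zf x ^ n) m := hc (star (kM w) * zf ^ n)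
  have i3 : Integrable (fun x => zf x ^ n) m := hc (zf ^ n)
  simp_rw [h3]
  have e1 : ∫ x, (kM w x * zf x ^ n + conj (kM w x) * zf x ^ n) - zf x ^ n ∂m
      = ∫ x, (kM w x * zf x ^ n + conj (kM w x) * zf x ^ n) ∂m - ∫ x, zf x ^ n ∂m :=
    integral_sub (i1.add i2) i3
  rw [e1, integral_add i1 i2, h1, h2, int_zf]
  ring

theorem int_pk {w : ℂ} (hw : ‖w‖ < 1) : ∫ x, pk w x ∂m = 1 := by
  have h := int_pk_pow hw 0
  simp only [pow_zero, mul_one] at h
  have h2 : ∫ x, (pk w x : ℂ) ∂m = ((∫ x, pk w x ∂m : ℝ) : ℂ) := integral_ofReal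
  rw [h2] at h
  exact_mod_cast h

theorem PM1 {w : ℂ} (hw : ‖w‖ < 1) {X : L2} (hX : X ∈ H2) (j : ℕ) :
    ∫ x, (pk w x : ℂ) * X x * zf x ^ j ∂m = w ^ j * ev w X := by
  have h1 := H2_int_hasSum hX (fun x => (pk w x : ℂ) * zf x ^ j)
    (memLp_pk_mul w (memLp_cont (zf ^ j)))
  have h2 : HasSum (fun n : ℕ => w ^ j * (fourierCoeff X (n : ℤ) * w ^ n))
      (∫ x, (pk w x : ℂ) * zf x ^ j * X x ∂m) := by
    refine hs_congr h1 fun n => ?_
    have h3 : ∫ x, (pk w x : ℂ) * zf x ^ j * zf x ^ n ∂m = w ^ (j + n) := by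
      rw [← int_pk_pow hw (j + n)]
      refine integral_congr_ae (Filter.Eventually.of_forall fun x => ?_)
      show (pk w x : ℂ) * zf x ^ j * zf x ^ n = (pk w x : ℂ) * zf x ^ (j + n)
      rw [pow_add]; ring
    rw [h3, pow_add]; ring
  have h4 := h2.unique ((ev_hasSum hw hX).mul_left (w ^ j))
  rw [← h4]
  refine integral_congr_ae (Filter.Eventually.of_forall fun x => ?_)
  show (pk w x : ℂ) * X x * zf x ^ j = (pk w x : ℂ) * zf x ^ j * X x
  ring

/-- multiplicativity of the evaluation -/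
theorem PM {w : ℂ} (hw : ‖w‖ < 1) {X Y : L2} (hX : X ∈ H2) (hY : Y ∈ H2) :
    ∫ x, (pk w x : ℂ) * X x * Y x ∂m = ev w X * ev w Y := by
  have h1 := H2_int_hasSum hY (fun x => (pk w x : ℂ) * X x) (memLp_pk_mul w (Lp.memLp X))
  have h2 : HasSum (fun n : ℕ => ev w X * (fourierCoeff Y (n : ℤ) * w ^ n))
      (∫ x, (pk w x : ℂ) * X x * Y x ∂m) := by
    refine hs_congr h1 fun n => ?_
    rw [PM1 hw hX]; ring
  exact h2.unique ((ev_hasSum hw hY).mul_left (ev w X))

theorem P1 {w : ℂ} (hw : ‖w‖ < 1) {X : L2} (hX : X ∈ H2) :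
    ∫ x, (pk w x : ℂ) * X x ∂m = ev w X := by
  have h := PM1 hw hX 0
  simpa using h

theorem kL_mem {w : ℂ} (hw : ‖w‖ < 1) : kL w ∈ H2 := by
  rw [mem_H2]
  intro n hn
  rw [← coefL_apply]
  have h1 := (coefL n).hasSum (kL_hasSum hw)
  have h2 : ∀ k : ℕ, coefL n (conj w ^ k • (fourierLp 2 (k : ℤ) : L2)) = 0 := by
    intro k
    rw [map_smul]
    have : coefL n (fourierLp 2 (k : ℤ) : L2) = ⟪(fourierLp 2 n : L2), fourierLp 2 (k : ℤ)⟫_ℂ := rfl
    rw [this, inner_fourier, if_neg (by omega), smul_zero]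
  simp only [h2] at h1
  exact h1.unique hasSum_zero

theorem ev_kL {w l : ℂ} (hw : ‖w‖ < 1) (hl : ‖l‖ < 1) : ev w (kL l) = (1 - conj l * w)⁻¹ := by
  have h1 := (ev w).hasSum (kL_hasSum hl)
  have h2 : HasSum (fun n : ℕ => (conj l * w) ^ n) (ev w (kL l)) := by
    refine hs_congr h1 fun n => ?_
    rw [map_smul, ev_fourier hw, smul_eq_mul, mul_pow]
  refine h2.unique (hasSum_geometric_of_norm_lt_one ?_)
  rw [norm_mul, RCLike.norm_conj]
  have := norm_nonneg w
  nlinarith [norm_nonneg l]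

theorem kL_norm_sq {w : ℂ} (hw : ‖w‖ < 1) : ‖kL w‖ ^ 2 = 1 / (1 - ‖w‖ ^ 2) := by
  have h1 : ⟪kL w, kL w⟫_ℂ = (1 - conj w * w)⁻¹ := ev_kL hw hw
  rw [inner_self_eq_norm_sq_to_K] at h1
  have h2 : conj w * w = ((‖w‖ ^ 2 : ℝ) : ℂ) := by
    rw [mul_comm, Complex.mul_conj, Complex.normSq_eq_norm_sq]
  rw [h2] at h1
  apply Complex.ofReal_injective
  push_cast at h1 ⊢
  rw [one_div]
  exact h1

theorem ev_le {w : ℂ} (hw : ‖w‖ < 1) (X : L2) : ‖ev w X‖ ^ 2 ≤ ‖X‖ ^ 2 / (1 - ‖w‖) := by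
  have h1 : ‖ev w X‖ ≤ ‖kL w‖ * ‖X‖ := norm_inner_le_norm (𝕜 := ℂ) (kL w) X
  have h2 := pow_le_pow_left₀ (norm_nonneg _) h1 2
  rw [mul_pow, kL_norm_sq hw] at h2
  refine h2.trans ?_
  rw [one_div, inv_mul_eq_div]
  have h0 := norm_nonneg w
  apply div_le_div_of_nonneg_left (by positivity) (by linarith)
  nlinarith

end Pool.Agent.H270R3.Cap
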