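import Mathlib
import Pool.Agent.H270R3.Cap.Poi

/-!
The disc algebra, exponentials, outer functions with prescribed modulus.
-/

set_option autoImplicit false

open MeasureTheory
open scoped ENNReal InnerProductSpace ComplexConjugate

namespace Pool.Agent.H270R3.Cap

/-- `L^∞` class of a continuous function -/
noncomputable def cI : C(Circ, ℂ) →L[ℂ] Linf := ContinuousMap.toLp ∞ m ℂ

theorem cI_ae (f : C(Circ, ℂ)) : cI f =ᵐ[m] f := ContinuousMap.coeFn_toLp m f

theorem cI_hinf {f : C(Circ, ℂ)} (hf : cL f ∈ H2) : IsHinf (cI f) := by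
  intro n hn
  rw [← hf n hn]
  exact congrFun (fourierCoeff_congr_ae ((cI_ae f).trans (cL_ae f).symm)) n

theorem cL_mul (f g : C(Circ, ℂ)) : cL (f * g) = mulOp (cI f) (cL g) := by
  apply Lp.ext
  filter_upwards [cL_ae (f * g), mulOp_ae (cI f) (cL g), cI_ae f, cL_ae g] with x h1 h2 h3 h4
  rw [h1, h2, h3, h4]; rfl

/-- the disc algebra -/
noncomputable def AD : Subalgebra ℂ C(Circ, ℂ) where
  carrier := {f | cL f ∈ H2}
  mul_mem' {f g} hf hg := by
    show cL (f * g) ∈ H2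
    rw [cL_mul]
    exact mulOp_mem (cI_hinf hf) hg
  add_mem' {f g} hf hg := by
    show cL (f + g) ∈ H2
    rw [map_add]
    exact H2.add_mem hf hg
  algebraMap_mem' c := by
    show cL (algebraMap ℂ _ c) ∈ H2
    have h1 : (algebraMap ℂ C(Circ, ℂ) c) = c • (fourier 0 : C(Circ, ℂ)) := by
      ext x; simp [Algebra.algebraMap_eq_smul_one]
    rw [h1, map_smul]
    apply H2.smul_mem
    rw [cL_fourier]
    intro n hn
    rw [← coefL_apply]
    have : coefL n (fourierLp 2 0 : L2) = ⟪(fourierLp 2 n : L2), fourierLp 2 0⟫_ℂ := rfl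
    rw [this, inner_fourier, if_neg (by omega)]

theorem mem_AD (f : C(Circ, ℂ)) : f ∈ AD ↔ cL f ∈ H2 := Iff.rfl

theorem AD_closed : IsClosed (AD : Set C(Circ, ℂ)) :=
  H2_closed.preimage cL.continuous

theorem zf_mem : zf ∈ AD := by
  show cL (fourier 1) ∈ H2
  rw [cL_fourier]
  intro n hn
  rw [← coefL_apply]
  have : coefL n (fourierLp 2 1 : L2) = ⟪(fourierLp 2 n : L2), fourierLp 2 1⟫_ℂ := rfl
  rw [this, inner_fourier, if_neg (by omega)]

/-- the exponential of a continuous function -/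
noncomputable def eC (f : C(Circ, ℂ)) : C(Circ, ℂ) := NormedSpace.exp f

theorem eC_hasSum (f : C(Circ, ℂ)) :
    HasSum (fun n : ℕ => ((n.factorial : ℂ)⁻¹) • f ^ n) (eC f) :=
  NormedSpace.exp_series_hasSum_exp' (𝕂 := ℂ) f

theorem eC_apply (f : C(Circ, ℂ)) (x : Circ) : eC f x = Complex.exp (f x) := by
  have h1 := ContinuousMap.hasSum_apply (eC_hasSum f) x
  have h2 := NormedSpace.exp_series_hasSum_exp' (𝕂 := ℂ) (f x)
  rw [← Complex.exp_eq_exp_ℂ] at h2
  refine h1.unique ?_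
  refine hs_congr h2 fun n => ?_
  simp

theorem eC_mem {f : C(Circ, ℂ)} (hf : f ∈ AD) : eC f ∈ AD := by
  apply AD_closed.mem_of_tendsto (eC_hasSum f)
  refine Filter.Eventually.of_forall fun s => ?_
  exact AD.sum_mem fun n _ => AD.smul_mem (AD.pow_mem hf n) _

theorem ev_mul {w : ℂ} (hw : ‖w‖ < 1) {f g : C(Circ, ℂ)} (hf : f ∈ AD) (hg : g ∈ AD) :
    ev w (cL (f * g)) = ev w (cL f) * ev w (cL g) := by
  rw [← PM hw hf hg, ← P1 hw (AD.mul_mem hf hg)]
  refine integral_congr_ae ?_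
  filter_upwards [cL_ae (f * g), cL_ae f, cL_ae g] with x h1 h2 h3
  rw [h1, h2, h3, ContinuousMap.mul_apply, mul_assoc]

theorem ev_one {w : ℂ} (hw : ‖w‖ < 1) : ev w (cL 1) = 1 := by
  have h1 : (1 : C(Circ, ℂ)) = fourier ((0 : ℕ) : ℤ) := by ext x; simp
  rw [h1, cL_fourier, ev_fourier hw, pow_zero]

theorem ev_pow {w : ℂ} (hw : ‖w‖ < 1) {f : C(Circ, ℂ)} (hf : f ∈ AD) (n : ℕ) :
    ev w (cL (f ^ n)) = ev w (cL f) ^ n := by
  induction n with
  | zero => rw [pow_zero, pow_zero, ev_one hw]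
  | succ n ih => rw [pow_succ, pow_succ, ev_mul hw (AD.pow_mem hf n) hf, ih]

theorem ev_eC {w : ℂ} (hw : ‖w‖ < 1) {f : C(Circ, ℂ)} (hf : f ∈ AD) :
    ev w (cL (eC f)) = Complex.exp (ev w (cL f)) := by
  have h1 := ((ev w).comp cL).hasSum (eC_hasSum f)
  have h2 := NormedSpace.exp_series_hasSum_exp' (𝕂 := ℂ) (ev w (cL f))
  rw [← Complex.exp_eq_exp_ℂ] at h2
  refine h1.unique ?_
  refine hs_congr h2 fun n => ?_
  rw [map_smul, ContinuousLinearMap.comp_apply, ev_pow hw hf]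

end Pool.Agent.H270R3.Cap
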