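import Mathlib
import Pool.Agent.H270R3.Cap.Disc

/-!
Bounded outer functions with prescribed modulus.
-/

set_option autoImplicit false

open MeasureTheory Filter
open scoped ENNReal InnerProductSpace ComplexConjugate Topology

namespace Pool.Agent.H270R3.Cap

theorem coef_le (X : L2) (n : ℤ) : ‖fourierCoeff X n‖ ≤ ‖X‖ := by
  rw [← coefL_apply]
  have h := norm_inner_le_norm (𝕜 := ℂ) (fourierLp 2 n : L2) X
  rw [(orthonormal_fourier (T := 2 * Real.pi)).1 n, one_mul] at h
  exact h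

theorem zf_pow_norm (n : ℕ) : ‖zf ^ n‖ = 1 := by
  rw [zf_pow]; exact fourier_norm _

theorem H2_parseval {X : L2} (hX : X ∈ H2) :
    HasSum (fun n : ℕ => ‖fourierCoeff X (n : ℤ)‖ ^ 2) (‖X‖ ^ 2) := by
  have h1 := hasSum_sq_fourierCoeff X
  have h2 : ∫ t, ‖X t‖ ^ 2 ∂m = ‖X‖ ^ 2 := by
    have h3 : ⟪X, X⟫_ℂ = ((∫ t, ‖X t‖ ^ 2 ∂m : ℝ) : ℂ) := by
      have h4 : ∫ t, ((‖X t‖ ^ 2 : ℝ) : ℂ) ∂m = ((∫ t, ‖X t‖ ^ 2 ∂m : ℝ) : ℂ) := integral_ofReal
      rw [L2.inner_def, ← h4]
      refine integral_congr_ae (Eventually.of_forall fun x => ?_)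
      show ⟪X x, X x⟫_ℂ = ((‖X x‖ ^ 2 : ℝ) : ℂ)
      rw [inner_self_eq_norm_sq_to_K]
      push_cast; rfl
    rw [inner_self_eq_norm_sq_to_K] at h3
    apply Complex.ofReal_injective
    rw [← h3]
    push_cast; rfl
  rw [← h2]
  have hinj : Function.Injective (fun n : ℕ => (n : ℤ)) := Nat.cast_injective
  refine (Function.Injective.hasSum_iff hinj ?_).2 h1
  intro k hk
  have hk' : k < 0 := by
    by_contra h
    push Not at h
    exact hk ⟨k.toNat, Int.toNat_of_nonneg h⟩
  rw [hX k hk', norm_zero]; norm_num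

/-- dilation -/
noncomputable def dil (r : ℝ) (X : L2) : C(Circ, ℂ) :=
  ∑' n : ℕ, (fourierCoeff X (n : ℤ) * (r : ℂ) ^ n) • zf ^ n

theorem dil_hasSum {r : ℝ} (h0 : 0 ≤ r) (h1 : r < 1) (X : L2) :
    HasSum (fun n : ℕ => (fourierCoeff X (n : ℤ) * (r : ℂ) ^ n) • zf ^ n) (dil r X) := by
  apply Summable.hasSum
  refine Summable.of_norm_bounded (g := fun n => ‖X‖ * r ^ n)
    ((summable_geometric_of_lt_one h0 h1).mul_left _) fun n => ?_
  rw [norm_smul, norm_mul, norm_pow, Complex.norm_real, zf_pow_norm, mul_one,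
    Real.norm_of_nonneg h0]
  exact mul_le_mul_of_nonneg_right (coef_le X _) (by positivity)

theorem rz_norm {r : ℝ} (h0 : 0 ≤ r) (x : Circ) : ‖(r : ℂ) * zf x‖ = r := by
  rw [norm_mul, zf_norm, mul_one, Complex.norm_real, Real.norm_of_nonneg h0]

theorem dil_apply {r : ℝ} (h0 : 0 ≤ r) (h1 : r < 1) {X : L2} (hX : X ∈ H2) (x : Circ) :
    dil r X x = ev ((r : ℂ) * zf x) X := by
  have h2 := ContinuousMap.hasSum_apply (dil_hasSum h0 h1 X) x
  have h3 := ev_hasSum (w := (r : ℂ) * zf x) (by rw [rz_norm h0]; exact h1) hX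
  refine h2.unique (hs_congr h3 fun n => ?_)
  simp only [ContinuousMap.smul_apply, ContinuousMap.pow_apply, smul_eq_mul]
  ring

theorem dil_mem {r : ℝ} (h0 : 0 ≤ r) (h1 : r < 1) (X : L2) : dil r X ∈ AD := by
  apply AD_closed.mem_of_tendsto (dil_hasSum h0 h1 X)
  refine Filter.Eventually.of_forall fun s => ?_
  exact AD.sum_mem fun n _ => AD.smul_mem (AD.pow_mem zf_mem n) _

theorem coef_fourier (n k : ℤ) : coefL n (fourierLp 2 k : L2) = if n = k then 1 else 0 :=
  inner_fourier n k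

theorem dil_coef {r : ℝ} (h0 : 0 ≤ r) (h1 : r < 1) (X : L2) (n : ℕ) :
    fourierCoeff (cL (dil r X)) (n : ℤ) = fourierCoeff X (n : ℤ) * (r : ℂ) ^ n := by
  rw [← coefL_apply]
  have h2 := ((coefL n).comp cL).hasSum (dil_hasSum h0 h1 X)
  refine (show HasSum _ (coefL n (cL (dil r X))) from h2).unique ?_
  have h3 : HasSum (fun k : ℕ => if k = n then fourierCoeff X (n : ℤ) * (r : ℂ) ^ n else 0)
      (fourierCoeff X (n : ℤ) * (r : ℂ) ^ n) := hasSum_ite_eq n _
  refine hs_congr h3 fun k => ?_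
  rw [map_smul, ContinuousLinearMap.comp_apply, zf_pow, cL_fourier, coef_fourier, smul_eq_mul]
  by_cases hk : k = n
  · subst hk; simp
  · rw [if_neg hk, if_neg (by omega), mul_zero]

/-- the radii `1 - 1/(k+2)` -/
noncomputable def rr (k : ℕ) : ℝ := 1 - 1 / ((k : ℝ) + 2)

theorem rr_nonneg (k : ℕ) : 0 ≤ rr k := by
  unfold rr
  have : (1 : ℝ) / ((k : ℝ) + 2) ≤ 1 := by
    rw [div_le_one (by positivity)]
    have : (0 : ℝ) ≤ k := Nat.cast_nonneg k
    linarith
  linarith

theorem rr_lt (k : ℕ) : rr k < 1 := by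
  unfold rr
  have : (0 : ℝ) < 1 / ((k : ℝ) + 2) := by positivity
  linarith

theorem rr_tendsto : Tendsto rr atTop (𝓝 1) := by
  have h1 : Tendsto (fun k : ℕ => (1 : ℝ) / ((k : ℝ) + 2)) atTop (𝓝 0) := by
    have h2 : Tendsto (fun k : ℕ => (k : ℝ) + 2) atTop atTop :=
      tendsto_atTop_add_const_right _ _ tendsto_natCast_atTop_atTop
    exact h2.const_div_atTop 1
  have h3 := (tendsto_const_nhds (x := (1 : ℝ)) (f := (atTop : Filter ℕ))).sub h1
  rw [sub_zero] at h3
  exact h3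

theorem dil_tendsto {X : L2} (hX : X ∈ H2) :
    Tendsto (fun k => cL (dil (rr k) X)) atTop (𝓝 X) := by
  rw [tendsto_iff_norm_sub_tendsto_zero]
  have h1 : Tendsto (fun k => ‖cL (dil (rr k) X) - X‖ ^ 2) atTop (𝓝 0) := by
    have h2 : ∀ k, ‖cL (dil (rr k) X) - X‖ ^ 2
        = ∑' n : ℕ, ‖fourierCoeff X (n : ℤ) * ((rr k : ℂ) ^ n - 1)‖ ^ 2 := by
      intro k
      have hm : cL (dil (rr k) X) - X ∈ H2 :=
        H2.sub_mem (dil_mem (rr_nonneg k) (rr_lt k) X) hX
      rw [← (H2_parseval hm).tsum_eq]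
      congr 1
      ext n
      rw [← coefL_apply, map_sub, coefL_apply, coefL_apply, dil_coef (rr_nonneg k) (rr_lt k)]
      congr 2
      ring
    have h3 : Tendsto (fun k => ∑' n : ℕ, ‖fourierCoeff X (n : ℤ) * ((rr k : ℂ) ^ n - 1)‖ ^ 2)
        atTop (𝓝 (∑' _ : ℕ, (0 : ℝ))) := by
      refine tendsto_tsum_of_dominated_convergence (bound := fun n : ℕ => ‖fourierCoeff X (n : ℤ)‖ ^ 2)
        (H2_parseval hX).summable (fun n => ?_) (Eventually.of_forall fun k n => ?_)
      · have h4 : Tendsto (fun k => fourierCoeff X (n : ℤ) * ((rr k : ℂ) ^ n - 1)) atTop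
            (𝓝 (fourierCoeff X (n : ℤ) * (((1 : ℝ) : ℂ) ^ n - 1))) :=
          ((((Complex.continuous_ofReal.tendsto _).comp rr_tendsto).pow n).sub_const 1).const_mul _
        have h5 := (h4.norm).pow 2
        simpa using h5
      · rw [Real.norm_of_nonneg (by positivity), norm_mul, mul_pow]
        have h6 : ‖(rr k : ℂ) ^ n - 1‖ ≤ 1 := by
          have h7 : ((rr k : ℂ) ^ n - 1) = (((rr k) ^ n - 1 : ℝ) : ℂ) := by push_cast; rfl
          rw [h7, Complex.norm_real, Real.norm_eq_abs, abs_le]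
          have h8 : 0 ≤ rr k ^ n := pow_nonneg (rr_nonneg k) n
          have h9 : rr k ^ n ≤ 1 := pow_le_one₀ (rr_nonneg k) (rr_lt k).le
          constructor <;> linarith
        have h10 : ‖(rr k : ℂ) ^ n - 1‖ ^ 2 ≤ 1 := pow_le_one₀ (norm_nonneg _) h6
        exact mul_le_of_le_one_right (by positivity) h10
    rw [tsum_zero] at h3
    refine h3.congr fun k => (h2 k).symm
  have h2 := h1.sqrt
  simp only [Real.sqrt_zero] at h2
  refine h2.congr fun k => ?_
  rw [Real.sqrt_sq (norm_nonneg _)]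

theorem re_dil_le {r : ℝ} (h0 : 0 ≤ r) (h1 : r < 1) {X : L2} (hX : X ∈ H2) {C : ℝ}
    (hC : ∀ᵐ x ∂m, |(X x).re| ≤ C) (x : Circ) : |(dil r X x).re| ≤ C := by
  rw [dil_apply h0 h1 hX]
  set w := (r : ℂ) * zf x with hw
  have hw1 : ‖w‖ < 1 := by rw [hw, rz_norm h0]; exact h1
  rw [← P1 hw1 hX]
  have hi : Integrable (fun y => (pk w y : ℂ) * X y) m :=
    (memLp_pk_mul w (Lp.memLp X)).integrable (by norm_num)
  have h2 : (∫ y, (pk w y : ℂ) * X y ∂m).re = ∫ y, pk w y * (X y).re ∂m := by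
    have h3 := integral_re hi
    have h4 : ∫ y, pk w y * (X y).re ∂m = ∫ y, RCLike.re ((pk w y : ℂ) * X y) ∂m := by
      refine integral_congr_ae (Eventually.of_forall fun y => ?_)
      show pk w y * (X y).re = ((pk w y : ℂ) * X y).re
      rw [Complex.re_ofReal_mul]
    rw [h4, h3]; rfl
  rw [h2]
  have hpi : Integrable (pk w) m :=
    (pk_continuous w).integrable_of_hasCompactSupport (HasCompactSupport.of_compactSpace _)
  have h3 : ‖∫ y, pk w y * (X y).re ∂m‖ ≤ ∫ y, pk w y * C ∂m := by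
    refine norm_integral_le_of_norm_le (hpi.mul_const C) ?_
    filter_upwards [hC] with y hy
    rw [norm_mul, Real.norm_of_nonneg (pk_nonneg hw1 y)]
    exact mul_le_mul_of_nonneg_left hy (pk_nonneg hw1 y)
  rw [integral_mul_const, int_pk hw1, one_mul] at h3
  exact h3

theorem exp_lip {C : ℝ} {a b : ℂ} (ha : a.re ≤ C) (hb : b.re ≤ C) :
    ‖Complex.exp a - Complex.exp b‖ ≤ Real.exp C * ‖a - b‖ := by
  have hconv : Convex ℝ {z : ℂ | z.re ≤ C} := by
    have : {z : ℂ | z.re ≤ C} = Complex.reCLM ⁻¹' (Set.Iic C) := rfl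
    rw [this]
    exact (convex_Iic C).is_linear_preimage Complex.reCLM.isBoundedLinearMap.toIsLinearMap
  refine hconv.norm_image_sub_le_of_norm_hasDerivWithin_le (f := Complex.exp) (f' := Complex.exp)
    (fun x _ => (Complex.hasDerivAt_exp x).hasDerivWithinAt) (fun x hx => ?_) hb ha
  rw [Complex.norm_exp]
  exact Real.exp_le_exp.2 hx

/-- the exponential of an `H²` function with bounded real part is in `H^∞` -/
theorem exp_hinf {X : L2} (hX : X ∈ H2) {C : ℝ} (hC : ∀ᵐ x ∂m, |(X x).re| ≤ C) :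
    ∃ b : Linf, IsHinf b ∧ ∀ᵐ x ∂m, b x = Complex.exp (X x) := by
  have hmeas : AEStronglyMeasurable (fun x => Complex.exp (X x)) m :=
    Complex.continuous_exp.comp_aestronglyMeasurable (Lp.aestronglyMeasurable X)
  have hbd : ∀ᵐ x ∂m, ‖Complex.exp (X x)‖ ≤ Real.exp C := by
    filter_upwards [hC] with x hx
    rw [Complex.norm_exp]
    exact Real.exp_le_exp.2 (abs_le.1 hx).2
  have hI : MemLp (fun x => Complex.exp (X x)) ∞ m := memLp_top_of_bound hmeas _ hbd
  have h2 : MemLp (fun x => Complex.exp (X x)) 2 m := hI.mono_exponent le_top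
  refine ⟨hI.toLp _, ?_, hI.coeFn_toLp⟩
  have hlim : Tendsto (fun k => cL (eC (dil (rr k) X))) atTop (𝓝 (h2.toLp _)) := by
    rw [tendsto_iff_norm_sub_tendsto_zero]
    have h3 : Tendsto (fun k => Real.exp C * ‖cL (dil (rr k) X) - X‖) atTop (𝓝 0) := by
      have h4 := (tendsto_iff_norm_sub_tendsto_zero.1 (dil_tendsto hX)).const_mul (Real.exp C)
      rwa [mul_zero] at h4
    refine squeeze_zero (fun k => norm_nonneg _) (fun k => ?_) h3
    apply Lp.norm_le_mul_norm_of_ae_le_mul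
    filter_upwards [Lp.coeFn_sub (cL (eC (dil (rr k) X))) (h2.toLp _),
      Lp.coeFn_sub (cL (dil (rr k) X)) X, cL_ae (eC (dil (rr k) X)), cL_ae (dil (rr k) X),
      h2.coeFn_toLp, hC] with x e1 e2 e3 e4 e5 e6
    rw [e1, e2, Pi.sub_apply, Pi.sub_apply, e3, e4, e5, eC_apply]
    exact exp_lip (abs_le.1 (re_dil_le (rr_nonneg k) (rr_lt k) hX hC x)).2 (abs_le.1 e6).2
  have hmem : h2.toLp _ ∈ H2 :=
    H2_closed.mem_of_tendsto hlim
      (Eventually.of_forall fun k => eC_mem (dil_mem (rr_nonneg k) (rr_lt k) X))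
  intro n hn
  rw [← hmem n hn]
  exact congrFun (fourierCoeff_congr_ae (hI.coeFn_toLp.trans h2.coeFn_toLp.symm)) n

theorem L2_ext_coef {X Y : L2} (h : ∀ n : ℤ, fourierCoeff X n = fourierCoeff Y n) : X = Y := by
  have h1 := hasSum_fourier_series_L2 X
  have h2 := hasSum_fourier_series_L2 Y
  have h3 : (fun i : ℤ => fourierCoeff X i • (fourierLp 2 i : L2))
      = fun i : ℤ => fourierCoeff Y i • (fourierLp 2 i : L2) := by
    ext1 i; rw [h i]
  rw [h3] at h1
  exact h1.unique h2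

theorem coef_conj {X : Circ → ℂ} (n : ℤ) :
    fourierCoeff (fun x => conj (X x)) n = conj (fourierCoeff X (-n)) := by
  unfold fourierCoeff
  rw [← integral_conj]
  refine integral_congr_ae (Eventually.of_forall fun x => ?_)
  show fourier (-n) x • conj (X x) = conj (fourier (- -n) x • X x)
  rw [smul_eq_mul, smul_eq_mul, map_mul, neg_neg, fourier_neg]

theorem memLp_conj {X : Circ → ℂ} (h : MemLp X 2 m) : MemLp (fun x => conj (X x)) 2 m := by
  refine MemLp.of_le h (Complex.continuous_conj.comp_aestronglyMeasurable h.1) ?_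
  exact Filter.Eventually.of_forall fun x => by rw [RCLike.norm_conj]

theorem coef_proj (X : L2) (n : ℕ) :
    fourierCoeff ((H2.orthogonalProjectionOnto X : H2) : L2) (n : ℤ) = fourierCoeff X (n : ℤ) := by
  have hz : (fourierLp 2 (n : ℤ) : L2) ∈ H2 := by
    intro k hk
    rw [← coefL_apply, coef_fourier, if_neg (by omega)]
  have h1 : ⟪(fourierLp 2 (n : ℤ) : L2), X - (H2.orthogonalProjectionOnto X : H2)⟫_ℂ = 0 := by
    have := Submodule.sub_starProjection_mem_orthogonal (K := H2) X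
    exact (Submodule.mem_orthogonal _ _).1 this _ hz
  rw [inner_sub_right] at h1
  rw [← coefL_apply, ← coefL_apply]
  exact (sub_eq_zero.1 h1).symm

/-- an `H²` function with prescribed bounded real part -/
theorem exists_re (v : Circ → ℝ) (hv : Measurable v) {C : ℝ} (hC : ∀ x, |v x| ≤ C) :
    ∃ X ∈ H2, ∀ᵐ x ∂m, (X x).re = v x := by
  have hvm : MemLp (fun x => (v x : ℂ)) 2 m := by
    have h1 : MemLp (fun x => (v x : ℂ)) ∞ m :=
      memLp_top_of_bound (Complex.measurable_ofReal.comp hv).aestronglyMeasurable C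
        (Eventually.of_forall fun x => by rw [Complex.norm_real]; exact hC x)
    exact h1.mono_exponent le_top
  set vL : L2 := hvm.toLp _ with hvL
  have hvae : vL =ᵐ[m] fun x => (v x : ℂ) := hvm.coeFn_toLp
  have hcv : ∀ n : ℤ, fourierCoeff vL (-n) = conj (fourierCoeff vL n) := by
    intro n
    have h1 : fourierCoeff vL = fourierCoeff (fun x => conj (vL x)) := by
      apply fourierCoeff_congr_ae
      filter_upwards [hvae] with x hx
      rw [hx, Complex.conj_ofReal]
    calc fourierCoeff vL (-n) = fourierCoeff (fun x => conj (vL x)) (-n) := by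
          exact congrFun h1 (-n)
      _ = conj (fourierCoeff vL n) := by rw [coef_conj, neg_neg]
  set p : L2 := ((H2.orthogonalProjectionOnto vL : H2) : L2) with hp
  have hpm : p ∈ H2 := (H2.orthogonalProjectionOnto vL).2
  set c : ℂ := fourierCoeff vL 0 with hc
  have hcc : conj c = c := by
    have := hcv 0
    rw [neg_zero] at this
    exact this.symm
  have h0m : (fourierLp 2 0 : L2) ∈ H2 := by
    intro k hk
    rw [← coefL_apply, coef_fourier, if_neg (by omega)]
  set V : L2 := (2 : ℂ) • p - c • (fourierLp 2 0 : L2) with hV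
  have hVm : V ∈ H2 := H2.sub_mem (H2.smul_mem _ hpm) (H2.smul_mem _ h0m)
  refine ⟨V, hVm, ?_⟩
  set Vc : L2 := (memLp_conj (Lp.memLp V)).toLp _ with hVc
  have hVcae : Vc =ᵐ[m] fun x => conj (V x) := (memLp_conj (Lp.memLp V)).coeFn_toLp
  have hVcoef : ∀ n : ℤ, fourierCoeff V n
      = (if 0 < n then 2 * fourierCoeff vL n else if n = 0 then c else 0) := by
    intro n
    by_cases h1 : n < 0
    · rw [hVm n h1, if_neg (by omega), if_neg (by omega)]
    · obtain ⟨k, rfl⟩ := Int.eq_ofNat_of_zero_le (not_lt.1 h1)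
      rw [← coefL_apply, hV, map_sub, map_smul, map_smul, coef_fourier, coefL_apply, hp, coef_proj]
      by_cases hk : k = 0
      · subst hk
        simp only [Nat.cast_zero, smul_eq_mul, if_true, lt_irrefl, if_false]
        rw [← hc]; ring
      · rw [if_neg (by omega), if_pos (by omega)]
        simp
  have hsum : V + Vc = (2 : ℂ) • vL := by
    apply L2_ext_coef
    intro n
    rw [← coefL_apply, ← coefL_apply, map_add, map_smul, coefL_apply, coefL_apply, coefL_apply]
    have h1 : fourierCoeff Vc n = conj (fourierCoeff V (-n)) := by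
      rw [← coef_conj]
      exact congrFun (fourierCoeff_congr_ae hVcae) n
    rw [h1, hVcoef, hVcoef, smul_eq_mul]
    rcases lt_trichotomy n 0 with h | h | h
    · rw [if_neg (by omega), if_neg (by omega), if_pos (by omega), map_mul, hcv, Complex.conj_conj,
        map_ofNat, zero_add]
    · subst h
      simp only [neg_zero, lt_irrefl, if_false, if_true]
      rw [hcc, ← hc]; ring
    · rw [if_pos h, if_neg (by omega), if_neg (by omega), map_zero, add_zero]
  have h1 : (V + Vc : L2) =ᵐ[m] ((2 : ℂ) • vL : L2) := by rw [hsum]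
  filter_upwards [h1, Lp.coeFn_add V Vc, Lp.coeFn_smul (2 : ℂ) vL, hvae, hVcae] with x e1 e2 e3 e4 e5
  rw [e2, e3, Pi.add_apply, Pi.smul_apply, e4, e5, smul_eq_mul, Complex.add_conj] at e1
  have e6 : (2 * (V x).re : ℝ) = 2 * v x := by exact_mod_cast e1
  linarith

/-- bounded outer functions -/
theorem exists_outer (v : Circ → ℝ) (hv : Measurable v) {C : ℝ} (hC : ∀ x, |v x| ≤ C) :
    ∃ b b' : Linf, IsHinf b ∧ IsHinf b' ∧ (∀ᵐ x ∂m, ‖b x‖ = Real.exp (v x)) ∧
      (∀ᵐ x ∂m, b x * b' x = 1) := by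
  obtain ⟨V, hV, hre⟩ := exists_re v hv hC
  have hb : ∀ᵐ x ∂m, |(V x).re| ≤ C := by
    filter_upwards [hre] with x hx
    rw [hx]; exact hC x
  have hV' : -V ∈ H2 := H2.neg_mem hV
  have hb' : ∀ᵐ x ∂m, |((-V : L2) x).re| ≤ C := by
    filter_upwards [hb, Lp.coeFn_neg V] with x hx h2
    rw [h2, Pi.neg_apply, Complex.neg_re, abs_neg]; exact hx
  obtain ⟨b, hb1, hb2⟩ := exp_hinf hV hb
  obtain ⟨b', hb1', hb2'⟩ := exp_hinf hV' hb'
  refine ⟨b, b', hb1, hb1', ?_, ?_⟩
  · filter_upwards [hb2, hre] with x h1 h2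
    rw [h1, Complex.norm_exp, h2]
  · filter_upwards [hb2, hb2', Lp.coeFn_neg V] with x h1 h2 h3
    rw [h1, h2, h3, Pi.neg_apply, ← Complex.exp_add, add_neg_cancel, Complex.exp_zero]

end Pool.Agent.H270R3.Cap
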