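import Mathlib
import Pool.Agent.H270R3.Cap.Outer

/-!
The lower bound for the second capacity.
-/

set_option autoImplicit false

open MeasureTheory Filter
open scoped ENNReal InnerProductSpace ComplexConjugate Topology

namespace Pool.Agent.H270R3.Cap

theorem exists_functional {E F : Type*} [AddCommGroup E] [Module ℂ E] [NormedAddCommGroup F]
    [NormedSpace ℂ F] (S : E →ₗ[ℂ] F) (l : E →ₗ[ℂ] ℂ) (C : ℝ) (hC : 0 ≤ C)
    (h : ∀ x, ‖l x‖ ≤ C * ‖S x‖) : ∃ φ : F →L[ℂ] ℂ, ‖φ‖ ≤ C ∧ ∀ x, φ (S x) = l x := by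
  have key : ∀ u v : E, S u = S v → l u = l v := by
    intro u v huv
    have h1 := h (u - v)
    rw [map_sub, map_sub, huv, sub_self, norm_zero, mul_zero] at h1
    exact sub_eq_zero.1 (norm_le_zero_iff.1 h1)
  have hs : ∀ y : LinearMap.range S, ∃ x : E, S x = y := fun y => y.2
  choose s hs using hs
  let l' : LinearMap.range S →ₗ[ℂ] ℂ :=
    { toFun := fun y => l (s y)
      map_add' := fun y z => by
        rw [← map_add]
        apply key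
        rw [map_add, hs, hs, hs]; rfl
      map_smul' := fun c y => by
        rw [RingHom.id_apply, ← map_smul]
        apply key
        rw [map_smul, hs, hs]; rfl }
  have hl' : ∀ y, ‖l' y‖ ≤ C * ‖y‖ := by
    intro y
    have h1 := h (s y)
    rw [hs] at h1
    exact h1
  obtain ⟨φ, hφ1, hφ2⟩ := exists_extension_norm_eq (LinearMap.range S) (l'.mkContinuous C hl')
  refine ⟨φ, ?_, fun x => ?_⟩
  · rw [hφ2]
    exact LinearMap.mkContinuous_norm_le _ hC _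
  · have h1 := hφ1 ⟨S x, ⟨x, rfl⟩⟩
    have h2 : φ (S x) = l (s ⟨S x, ⟨x, rfl⟩⟩) := h1
    rw [h2]
    exact key _ _ (hs _)

/-- the constant function one -/
noncomputable def oneL : L2 := cL 1

theorem oneL_ae : oneL =ᵐ[m] fun _ => (1 : ℂ) := cL_ae 1

theorem oneL_mem : oneL ∈ H2 := AD.one_mem

/-- a bounded function as an element of `L²` -/
noncomputable def toL2 (b : Linf) : L2 := mulOp b oneL

theorem toL2_ae (b : Linf) : toL2 b =ᵐ[m] b := by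
  filter_upwards [mulOp_ae b oneL, oneL_ae] with x h1 h2
  show (mulOp b oneL : L2) x = b x
  rw [h1, h2, mul_one]

theorem toL2_mem {b : Linf} (hb : IsHinf b) : toL2 b ∈ H2 := mulOp_mem hb oneL_mem

theorem norm_ae_le (b : Linf) : ∀ᵐ x ∂m, ‖b x‖ ≤ ‖b‖ := by
  have h := ae_le_eLpNormEssSup (f := b) (μ := m)
  filter_upwards [h] with x hx
  rw [Lp.norm_def, eLpNorm_exponent_top]
  have h2 : eLpNormEssSup b m ≠ ∞ := by
    have := Lp.eLpNorm_ne_top b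
    rwa [eLpNorm_exponent_top] at this
  rw [← ENNReal.ofReal_le_ofReal_iff ENNReal.toReal_nonneg, ENNReal.ofReal_toReal h2, ofReal_norm]
  exact hx

theorem pk_integrable (w : ℂ) : Integrable (pk w) m :=
  (pk_continuous w).integrable_of_hasCompactSupport (HasCompactSupport.of_compactSpace _)

/-- lower bound for the modulus of an invertible bounded function inside the disc -/
theorem ev_ge {b b' : Linf} (hb : IsHinf b) (hb' : IsHinf b') (hbb' : ∀ᵐ x ∂m, b x * b' x = 1)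
    (hb'2 : ∀ᵐ x ∂m, ‖b' x‖ ≤ 2) {w : ℂ} (hw : ‖w‖ < 1) : 1 / 2 ≤ ‖ev w (toL2 b)‖ := by
  have h1 := PM hw (toL2_mem hb) (toL2_mem hb')
  have h2 : ∫ x, (pk w x : ℂ) * toL2 b x * toL2 b' x ∂m = 1 := by
    have h3 : ∫ x, (pk w x : ℂ) * toL2 b x * toL2 b' x ∂m = ∫ x, (pk w x : ℂ) ∂m := by
      refine integral_congr_ae ?_
      filter_upwards [toL2_ae b, toL2_ae b', hbb'] with x e1 e2 e3
      rw [e1, e2, mul_assoc, e3, mul_one]
    rw [h3]
    have h4 := int_pk_pow hw 0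
    simpa using h4
  rw [h2] at h1
  have h3 : ‖ev w (toL2 b')‖ ≤ 2 := by
    rw [← P1 hw (toL2_mem hb')]
    have h4 : ‖∫ x, (pk w x : ℂ) * toL2 b' x ∂m‖ ≤ ∫ x, pk w x * 2 ∂m := by
      refine norm_integral_le_of_norm_le ((pk_integrable w).mul_const 2) ?_
      filter_upwards [toL2_ae b', hb'2] with x e1 e2
      rw [norm_mul, e1, Complex.norm_real, Real.norm_of_nonneg (pk_nonneg hw x)]
      exact mul_le_mul_of_nonneg_left e2 (pk_nonneg hw x)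
    rw [integral_mul_const, int_pk hw, one_mul] at h4
    exact h4
  have h4 := congrArg (fun z => ‖z‖) h1
  simp only [norm_mul, norm_one] at h4
  have h5 := norm_nonneg (ev w (toL2 b))
  nlinarith

/-- `a = (1 - |b|²)^{1/2}` -/
noncomputable def av (b : Linf) (x : Circ) : ℝ := Real.sqrt (1 - ‖b x‖ ^ 2)

theorem av_meas (b : Linf) : AEStronglyMeasurable (av b) m := by
  unfold av
  have h1 := (Lp.aestronglyMeasurable b).norm
  exact Real.continuous_sqrt.comp_aestronglyMeasurable ((aestronglyMeasurable_const).sub (h1.pow 2))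

theorem av_nonneg (b : Linf) (x : Circ) : 0 ≤ av b x := Real.sqrt_nonneg _

theorem av_le (b : Linf) (x : Circ) : av b x ≤ 1 := by
  unfold av
  have := sq_nonneg ‖b x‖
  exact Real.sqrt_le_iff.2 ⟨by norm_num, by linarith⟩

theorem av_memLp (b : Linf) : MemLp (fun x => (av b x : ℂ)) ∞ m := by
  refine memLp_top_of_bound (Complex.continuous_ofReal.comp_aestronglyMeasurable (av_meas b)) 1
    (Eventually.of_forall fun x => ?_)
  rw [Complex.norm_real, Real.norm_of_nonneg (av_nonneg b x)]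
  exact av_le b x

/-- `a` as a bounded function -/
noncomputable def aI (b : Linf) : Linf := (av_memLp b).toLp _

theorem aI_ae (b : Linf) : aI b =ᵐ[m] fun x => (av b x : ℂ) := (av_memLp b).coeFn_toLp

theorem L2_norm_sq (X : L2) : ‖X‖ ^ 2 = ∫ x, ‖X x‖ ^ 2 ∂m := by
  have h3 : ⟪X, X⟫_ℂ = ((∫ t, ‖X t‖ ^ 2 ∂m : ℝ) : ℂ) := by
    have h4 : ∫ t, ((‖X t‖ ^ 2 : ℝ) : ℂ) ∂m = ((∫ t, ‖X t‖ ^ 2 ∂m : ℝ) : ℂ) := integral_ofReal
    rw [L2.inner_def, ← h4]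
    refine integral_congr_ae (Eventually.of_forall fun x => ?_)
    show ⟪X x, X x⟫_ℂ = ((‖X x‖ ^ 2 : ℝ) : ℂ)
    rw [inner_self_eq_norm_sq_to_K]
    push_cast; rfl
  rw [inner_self_eq_norm_sq_to_K] at h3
  apply Complex.ofReal_injective
  rw [← h3]
  push_cast; rfl

theorem L2_sq_integrable (X : L2) : Integrable (fun x => ‖X x‖ ^ 2) m :=
  (memLp_two_iff_integrable_sq_norm (Lp.aestronglyMeasurable X)).1 (Lp.memLp X)

theorem a_norm {b : Linf} (hb1 : ‖b‖ ≤ 1) (h : L2) :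
    ‖mulOp (aI b) h‖ ^ 2 = ‖h‖ ^ 2 - ‖mulOp b h‖ ^ 2 := by
  rw [L2_norm_sq, L2_norm_sq, L2_norm_sq, ← integral_sub (L2_sq_integrable _) (L2_sq_integrable _)]
  refine integral_congr_ae ?_
  filter_upwards [mulOp_ae (aI b) h, mulOp_ae b h, aI_ae b, norm_ae_le b] with x e1 e2 e3 e4
  show ‖mulOp (aI b) h x‖ ^ 2 = ‖h x‖ ^ 2 - ‖mulOp b h x‖ ^ 2
  rw [e1, e2, e3, norm_mul, norm_mul, Complex.norm_real, Real.norm_of_nonneg (av_nonneg b x),
    mul_pow, mul_pow]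
  have h1 : ‖b x‖ ^ 2 ≤ 1 := pow_le_one₀ (norm_nonneg _) (e4.trans hb1)
  have h2 : av b x ^ 2 = 1 - ‖b x‖ ^ 2 := Real.sq_sqrt (by linarith)
  rw [h2]; ring

/-- the dual function -/
theorem exists_F {b : Linf} (hb : IsHinf b) (hb1 : ‖b‖ ≤ 1) (g : H2) :
    ∃ F : L2, ‖F‖ ≤ ‖g‖ ∧ ∀ h ∈ H2,
      ⟪F, mulOp (aI b) h⟫_ℂ = ⟪((defectRoot b g : H2) : L2), mulOp b h⟫_ℂ := by
  set f : H2 := defectRoot b g with hf
  have hT : ‖toeplitz b‖ ≤ 1 := toeplitz_norm hb1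
  obtain ⟨φ, hφ1, hφ2⟩ := exists_functional (((mulOp (aI b)).comp H2.subtypeL).toLinearMap)
    (((innerSL ℂ (f : L2)).comp ((mulOp b).comp H2.subtypeL)).toLinearMap) ‖g‖ (norm_nonneg _) (by
      intro h
      show ‖⟪(f : L2), mulOp b (h : L2)⟫_ℂ‖ ≤ ‖g‖ * ‖mulOp (aI b) (h : L2)‖
      have h1 := root_lower hT g h
      have h2 : ⟪toeplitz b h, opRoot (1 - toeplitz b * ContinuousLinearMap.adjoint (toeplitz b)) g⟫_ℂ
          = ⟪mulOp b (h : L2), (f : L2)⟫_ℂ := by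
        rw [← toeplitz_coe hb]; rfl
      have h3 : ‖toeplitz b h‖ = ‖mulOp b (h : L2)‖ := by
        rw [← toeplitz_coe hb]; rfl
      have h4 : ‖h‖ = ‖(h : L2)‖ := rfl
      rw [h2, h3, h4, ← a_norm hb1, ← mul_pow, ← inner_conj_symm, RCLike.norm_conj] at h1
      exact (pow_le_pow_iff_left₀ (norm_nonneg _) (by positivity) two_ne_zero).1 h1)
  refine ⟨(InnerProductSpace.toDual ℂ L2).symm φ, ?_, fun h hh => ?_⟩
  · rw [LinearIsometryEquiv.norm_map]; exact hφ1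
  · rw [InnerProductSpace.toDual_symm_apply]
    exact hφ2 ⟨h, hh⟩

/-- the abstract lower bound -/
theorem lower {b b' : Linf} (hb : IsHinf b) (hb1 : ‖b‖ ≤ 1) (hb' : IsHinf b')
    (hbb' : ∀ᵐ x ∂m, b x * b' x = 1) (hb'2 : ∀ᵐ x ∂m, ‖b' x‖ ≤ 2)
    {G : C(Circ, ℂ)} (hG : G ∈ AD) {w : ℂ} (hw : ‖w‖ < 1) (hGw : 4 ≤ ‖ev w (cL G)‖)
    (g : H2)
    (hGf : ∀ᵐ x ∂m, (‖((defectRoot b g : H2) : L2) x‖ = 1 ∧ av b x * ‖G x‖ ≤ 1) ∨ ‖G x‖ ≤ 1) :
    (1 - ‖w‖) / 16 ≤ ‖g‖ ^ 2 := by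
  by_contra hcon
  push Not at hcon
  have hd : 0 < 1 - ‖w‖ := by linarith
  set d := 1 - ‖w‖ with hddef
  obtain ⟨F, hF1, hF2⟩ := exists_F hb hb1 g
  set f : H2 := defectRoot b g with hf
  have hfn : ‖(f : L2)‖ ≤ ‖g‖ := root_norm_le (toeplitz_norm hb1) g
  -- the function `H`
  set bf : L2 := mulOp b ((memLp_conj (Lp.memLp (f : L2))).toLp _) with hbf
  have hbfae : bf =ᵐ[m] fun x => b x * conj ((f : L2) x) := by
    filter_upwards [mulOp_ae b ((memLp_conj (Lp.memLp (f : L2))).toLp _),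
      (memLp_conj (Lp.memLp (f : L2))).coeFn_toLp] with x e1 e2
    rw [hbf, e1, e2]
  set aF : L2 := mulOp (aI b) ((memLp_conj (Lp.memLp F)).toLp _) with haF
  have haFae : aF =ᵐ[m] fun x => (av b x : ℂ) * conj (F x) := by
    filter_upwards [mulOp_ae (aI b) ((memLp_conj (Lp.memLp F)).toLp _),
      (memLp_conj (Lp.memLp F)).coeFn_toLp, aI_ae b] with x e1 e2 e3
    rw [haF, e1, e2, e3]
  set Hh : L2 := bf - aF with hHh
  have hHae : Hh =ᵐ[m] fun x => b x * conj ((f : L2) x) - (av b x : ℂ) * conj (F x) := by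
    filter_upwards [Lp.coeFn_sub bf aF, hbfae, haFae] with x e1 e2 e3
    rw [hHh, e1, Pi.sub_apply, e2, e3]
  have hconjn : ∀ X : L2, ‖(memLp_conj (Lp.memLp X)).toLp _‖ = ‖X‖ := by
    intro X
    have h1 := L2_norm_sq ((memLp_conj (Lp.memLp X)).toLp _)
    have h2 : ∫ x, ‖((memLp_conj (Lp.memLp X)).toLp _ : L2) x‖ ^ 2 ∂m = ∫ x, ‖X x‖ ^ 2 ∂m := by
      refine integral_congr_ae ?_
      filter_upwards [(memLp_conj (Lp.memLp X)).coeFn_toLp] with x hx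
      rw [hx, RCLike.norm_conj]
    rw [h2, ← L2_norm_sq] at h1
    exact (pow_left_inj₀ (norm_nonneg _) (norm_nonneg _) two_ne_zero).1 h1
  have hHn : ‖Hh‖ ≤ 2 * ‖g‖ := by
    have h1 : ‖bf‖ ≤ ‖g‖ := by
      refine (mulOp_norm b _).trans ?_
      rw [hconjn]
      exact (mul_le_of_le_one_left (norm_nonneg _) hb1).trans hfn
    have h2 : ‖aF‖ ≤ ‖g‖ := by
      have h3 : ‖aF‖ ≤ ‖F‖ := by
        rw [← hconjn F]
        have := a_norm hb1 ((memLp_conj (Lp.memLp F)).toLp _)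
        rw [← haF] at this
        have h4 : ‖aF‖ ^ 2 ≤ ‖(memLp_conj (Lp.memLp F)).toLp _‖ ^ 2 := by
          rw [this]
          linarith [sq_nonneg ‖mulOp b ((memLp_conj (Lp.memLp F)).toLp _)‖]
        exact (pow_le_pow_iff_left₀ (norm_nonneg _) (norm_nonneg _) two_ne_zero).1 h4
      exact h3.trans hF1
    calc ‖Hh‖ ≤ ‖bf‖ + ‖aF‖ := norm_sub_le _ _
      _ ≤ 2 * ‖g‖ := by linarith
  have hHm : Hh ∈ H2 := by
    intro n hn
    obtain ⟨k, hk⟩ := Int.eq_ofNat_of_zero_le (show 0 ≤ -n by omega)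
    have hz : (fourierLp 2 (k : ℤ) : L2) ∈ H2 := by
      intro j hj
      rw [← coefL_apply, coef_fourier, if_neg (by omega)]
    have h1 := hF2 _ hz
    have h2 : fourierCoeff Hh n = ⟪(f : L2), mulOp b (fourierLp 2 (k : ℤ))⟫_ℂ
        - ⟪F, mulOp (aI b) (fourierLp 2 (k : ℤ))⟫_ℂ := by
      rw [L2.inner_def, L2.inner_def, ← integral_sub (L2.integrable_inner _ _) (L2.integrable_inner _ _)]
      unfold fourierCoeff
      refine integral_congr_ae ?_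
      filter_upwards [hHae, mulOp_ae b (fourierLp 2 (k : ℤ)),
        mulOp_ae (aI b) (fourierLp 2 (k : ℤ)), fourierLp_ae (k : ℤ), aI_ae b] with x e1 e2 e3 e4 e5
      show fourier (-n) x • Hh x = ⟪(f : L2) x, mulOp b (fourierLp 2 (k : ℤ)) x⟫_ℂ
        - ⟪F x, mulOp (aI b) (fourierLp 2 (k : ℤ)) x⟫_ℂ
      rw [e1, e2, e3, e4, e5, RCLike.inner_apply, RCLike.inner_apply, smul_eq_mul, hk]
      ring
    rw [h2, ← h1, sub_self]
  -- evaluation identities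
  have hfm : (f : L2) ∈ H2 := f.2
  set Gf : L2 := mulOp (cI G) (f : L2) with hGfdef
  have hGfm : Gf ∈ H2 := mulOp_mem (cI_hinf hG) hfm
  have hGfae : Gf =ᵐ[m] fun x => G x * (f : L2) x := by
    filter_upwards [mulOp_ae (cI G) (f : L2), cI_ae G] with x e1 e2
    rw [hGfdef, e1, e2]
  have E1 : ev w Gf = ev w (cL G) * ev w (f : L2) := by
    rw [← PM hw hG hfm, ← P1 hw hGfm]
    refine integral_congr_ae ?_
    filter_upwards [hGfae, cL_ae G] with x e1 e2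
    rw [e1, e2, mul_assoc]
  have E2 : ∫ x, (pk w x : ℂ) * Gf x * Hh x ∂m = ev w (cL G) * ev w (f : L2) * ev w Hh := by
    rw [PM hw hGfm hHm, E1]
  have hbm := toL2_mem hb
  have E3 : ∫ x, (pk w x : ℂ) * cL G x * toL2 b x ∂m = ev w (cL G) * ev w (toL2 b) :=
    PM hw hG hbm
  have I2 : Integrable (fun x => (pk w x : ℂ) * Gf x * Hh x) m :=
    int_mul_integrable (memLp_pk_mul w (Lp.memLp Gf)) Hh
  have I3 : Integrable (fun x => (pk w x : ℂ) * cL G x * toL2 b x) m :=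
    int_mul_integrable (memLp_pk_mul w (Lp.memLp (cL G))) (toL2 b)
  have E4 : ev w (cL G) * (ev w (toL2 b) - ev w (f : L2) * ev w Hh)
      = ∫ x, ((pk w x : ℂ) * cL G x * toL2 b x - (pk w x : ℂ) * Gf x * Hh x) ∂m := by
    rw [integral_sub I3 I2, E2, E3]; ring
  -- the right-hand side
  have hR : ‖∫ x, ((pk w x : ℂ) * cL G x * toL2 b x - (pk w x : ℂ) * Gf x * Hh x) ∂m‖
      ≤ 1 + 4 * ‖g‖ ^ 2 / d := by
    have h1 : ‖∫ x, ((pk w x : ℂ) * cL G x * toL2 b x - (pk w x : ℂ) * Gf x * Hh x) ∂m‖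
        ≤ ∫ x, (pk w x + (3 / d * ‖(f : L2) x‖ ^ 2 + 1 / d * ‖F x‖ ^ 2)) ∂m := by
      refine norm_integral_le_of_norm_le ((pk_integrable w).add
        (((L2_sq_integrable _).const_mul _).add ((L2_sq_integrable _).const_mul _))) ?_
      filter_upwards [hGf, cL_ae G, toL2_ae b, hGfae, hHae, norm_ae_le b] with x h1 e1 e2 e3 e4 e5
      rw [e1, e2, e3, e4]
      have e6 : (f : L2) x * conj ((f : L2) x) = ((‖(f : L2) x‖ ^ 2 : ℝ) : ℂ) := by
        rw [Complex.mul_conj, Complex.normSq_eq_norm_sq]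
      have e7 : (pk w x : ℂ) * G x * b x - (pk w x : ℂ) * (G x * (f : L2) x)
            * (b x * conj ((f : L2) x) - (av b x : ℂ) * conj (F x))
          = (pk w x : ℂ) * (G x * b x * ((1 - ‖(f : L2) x‖ ^ 2 : ℝ) : ℂ)
            + ((av b x : ℂ) * G x) * ((f : L2) x * conj (F x))) := by
        rw [Complex.ofReal_sub, ← e6, Complex.ofReal_one]; ring
      rw [e7, norm_mul, Complex.norm_real, Real.norm_of_nonneg (pk_nonneg hw x)]
      have hbx : ‖b x‖ ≤ 1 := e5.trans hb1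
      have hav0 := av_nonneg b x
      have hav1 := av_le b x
      have hGn := norm_nonneg (G x)
      have hfn0 := norm_nonneg ((f : L2) x)
      have hFn0 := norm_nonneg (F x)
      have p1 : ‖G x * b x * ((1 - ‖(f : L2) x‖ ^ 2 : ℝ) : ℂ)‖ ≤ 1 + ‖(f : L2) x‖ ^ 2 := by
        rw [norm_mul, norm_mul, Complex.norm_real]
        rcases h1 with h1 | h1
        · rw [h1.1]; norm_num
        · have h2 : ‖(1 - ‖(f : L2) x‖ ^ 2 : ℝ)‖ ≤ 1 + ‖(f : L2) x‖ ^ 2 := by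
            rw [Real.norm_eq_abs, abs_le]
            constructor <;> nlinarith [sq_nonneg ‖(f : L2) x‖]
          have h3 : ‖G x‖ * ‖b x‖ ≤ 1 := mul_le_one₀ h1 (norm_nonneg _) hbx
          calc ‖G x‖ * ‖b x‖ * ‖(1 - ‖(f : L2) x‖ ^ 2 : ℝ)‖
              ≤ 1 * (1 + ‖(f : L2) x‖ ^ 2) :=
                mul_le_mul h3 h2 (norm_nonneg _) zero_le_one
            _ = _ := one_mul _
      have p2 : ‖((av b x : ℂ) * G x) * ((f : L2) x * conj (F x))‖
          ≤ (‖(f : L2) x‖ ^ 2 + ‖F x‖ ^ 2) / 2 := by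
        rw [norm_mul, norm_mul, norm_mul, Complex.norm_real, Real.norm_of_nonneg hav0,
          RCLike.norm_conj]
        have h2 : av b x * ‖G x‖ ≤ 1 := by
          rcases h1 with h1 | h1
          · exact h1.2
          · exact mul_le_one₀ hav1 hGn h1
        calc av b x * ‖G x‖ * (‖(f : L2) x‖ * ‖F x‖) ≤ 1 * (‖(f : L2) x‖ * ‖F x‖) :=
              mul_le_mul_of_nonneg_right h2 (by positivity)
          _ ≤ _ := by nlinarith [sq_nonneg (‖(f : L2) x‖ - ‖F x‖)]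
      have p3 := (norm_add_le (G x * b x * ((1 - ‖(f : L2) x‖ ^ 2 : ℝ) : ℂ))
        (((av b x : ℂ) * G x) * ((f : L2) x * conj (F x)))).trans (add_le_add p1 p2)
      have p4 := mul_le_mul_of_nonneg_left p3 (pk_nonneg hw x)
      refine p4.trans ?_
      have p5 := pk_le hw x
      rw [← hddef] at p5
      have p6 : pk w x * (3 * ‖(f : L2) x‖ ^ 2 + ‖F x‖ ^ 2) / 2
          ≤ 2 / d * (3 * ‖(f : L2) x‖ ^ 2 + ‖F x‖ ^ 2) / 2 := by
        have := mul_le_mul_of_nonneg_right p5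
          (show 0 ≤ 3 * ‖(f : L2) x‖ ^ 2 + ‖F x‖ ^ 2 by positivity)
        linarith
      calc pk w x * (1 + ‖(f : L2) x‖ ^ 2 + (‖(f : L2) x‖ ^ 2 + ‖F x‖ ^ 2) / 2)
          = pk w x + pk w x * (3 * ‖(f : L2) x‖ ^ 2 + ‖F x‖ ^ 2) / 2 := by ring
        _ ≤ pk w x + 2 / d * (3 * ‖(f : L2) x‖ ^ 2 + ‖F x‖ ^ 2) / 2 := by linarith
        _ = _ := by ring
    refine h1.trans ?_
    have q1 : ∫ x, (pk w x + (3 / d * ‖(f : L2) x‖ ^ 2 + 1 / d * ‖F x‖ ^ 2)) ∂m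
        = ∫ x, pk w x ∂m + ∫ x, (3 / d * ‖(f : L2) x‖ ^ 2 + 1 / d * ‖F x‖ ^ 2) ∂m :=
      integral_add (pk_integrable w)
        (((L2_sq_integrable _).const_mul _).add ((L2_sq_integrable _).const_mul _))
    have q2 : ∫ x, (3 / d * ‖(f : L2) x‖ ^ 2 + 1 / d * ‖F x‖ ^ 2) ∂m
        = ∫ x, (3 / d * ‖(f : L2) x‖ ^ 2) ∂m + ∫ x, (1 / d * ‖F x‖ ^ 2) ∂m :=
      integral_add ((L2_sq_integrable _).const_mul _) ((L2_sq_integrable _).const_mul _)
    rw [q1, q2, int_pk hw, integral_const_mul, integral_const_mul, ← L2_norm_sq, ← L2_norm_sq]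
    have h2 : ‖(f : L2)‖ ^ 2 ≤ ‖g‖ ^ 2 := pow_le_pow_left₀ (norm_nonneg _) hfn 2
    have h3 : ‖F‖ ^ 2 ≤ ‖g‖ ^ 2 := pow_le_pow_left₀ (norm_nonneg _) hF1 2
    have h4 : 3 / d * ‖(f : L2)‖ ^ 2 ≤ 3 / d * ‖g‖ ^ 2 :=
      mul_le_mul_of_nonneg_left h2 (by positivity)
    have h5 : 1 / d * ‖F‖ ^ 2 ≤ 1 / d * ‖g‖ ^ 2 :=
      mul_le_mul_of_nonneg_left h3 (by positivity)
    calc 1 + (3 / d * ‖(f : L2)‖ ^ 2 + 1 / d * ‖F‖ ^ 2)
        ≤ 1 + (3 / d * ‖g‖ ^ 2 + 1 / d * ‖g‖ ^ 2) := by linarith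
      _ = _ := by ring
  rw [← E4, norm_mul] at hR
  have hgd : ‖g‖ ^ 2 / d < 1 / 16 := by
    rw [div_lt_iff₀ hd]; linarith
  have h6 : 1 + 4 * ‖g‖ ^ 2 / d ≤ 5 / 4 := by
    have : 4 * ‖g‖ ^ 2 / d = 4 * (‖g‖ ^ 2 / d) := by ring
    rw [this]; linarith
  -- the left-hand side
  have h7 : ‖ev w (f : L2)‖ ≤ 1 / 4 := by
    have h8 := ev_le hw (f : L2)
    rw [← hddef] at h8
    have h9 : ‖(f : L2)‖ ^ 2 / d ≤ ‖g‖ ^ 2 / d :=
      div_le_div_of_nonneg_right (pow_le_pow_left₀ (norm_nonneg _) hfn 2) hd.le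
    have h10 : ‖ev w (f : L2)‖ ^ 2 ≤ (1 / 4) ^ 2 := by linarith
    exact (pow_le_pow_iff_left₀ (norm_nonneg _) (by norm_num) two_ne_zero).1 h10
  have h8 : ‖ev w Hh‖ ≤ 1 / 2 := by
    have h8 := ev_le hw Hh
    rw [← hddef] at h8
    have h9 : ‖Hh‖ ^ 2 / d ≤ (2 * ‖g‖) ^ 2 / d :=
      div_le_div_of_nonneg_right (pow_le_pow_left₀ (norm_nonneg _) hHn 2) hd.le
    have h10 : ‖ev w Hh‖ ^ 2 ≤ (1 / 2) ^ 2 := by
      have : (2 * ‖g‖) ^ 2 / d = 4 * (‖g‖ ^ 2 / d) := by ring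
      rw [this] at h9
      linarith
    exact (pow_le_pow_iff_left₀ (norm_nonneg _) (by norm_num) two_ne_zero).1 h10
  have h9 : ‖ev w (f : L2) * ev w Hh‖ ≤ 1 / 8 := by
    rw [norm_mul]
    have := mul_le_mul h7 h8 (norm_nonneg _) (by norm_num)
    linarith
  have h10 := ev_ge hb hb' hbb' hb'2 hw
  have h11 : 3 / 8 ≤ ‖ev w (toL2 b) - ev w (f : L2) * ev w Hh‖ := by
    have := norm_sub_norm_le (ev w (toL2 b)) (ev w (f : L2) * ev w Hh)
    linarith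
  have h12 : 4 * (3 / 8) ≤ ‖ev w (cL G)‖ * ‖ev w (toL2 b) - ev w (f : L2) * ev w Hh‖ :=
    mul_le_mul hGw h11 (by norm_num) (norm_nonneg _)
  linarith

end Pool.Agent.H270R3.Cap
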