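import Mathlib
import Pool.Agent.H270R3.Cap.Lower

/-!
The upper bound for the first capacity, and both bounds in terms of the capacities.
-/

set_option autoImplicit false

open MeasureTheory Filter
open scoped ENNReal InnerProductSpace ComplexConjugate Topology

namespace Pool.Agent.H270R3.Cap

theorem ev_mulOp {b : Linf} (hb : IsHinf b) {w : ℂ} (hw : ‖w‖ < 1) {h : L2} (hh : h ∈ H2) :
    ev w (mulOp b h) = ev w (toL2 b) * ev w h := by
  rw [← PM hw (toL2_mem hb) hh, ← P1 hw (mulOp_mem hb hh)]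
  refine integral_congr_ae ?_
  filter_upwards [mulOp_ae b h, toL2_ae b] with x e1 e2
  rw [e1, e2, mul_assoc]

/-- the kernel as an element of `H²` -/
noncomputable def kH {w : ℂ} (hw : ‖w‖ < 1) : H2 := ⟨kL w, kL_mem hw⟩

theorem adj_kH {b : Linf} (hb : IsHinf b) {w : ℂ} (hw : ‖w‖ < 1) :
    ContinuousLinearMap.adjoint (toeplitz b) (kH hw) = conj (ev w (toL2 b)) • kH hw := by
  apply ext_inner_right ℂ
  intro h
  rw [ContinuousLinearMap.adjoint_inner_left]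
  have h0 : ⟪conj (ev w (toL2 b)) • kH hw, h⟫_ℂ = conj (conj (ev w (toL2 b))) * ⟪kH hw, h⟫_ℂ :=
    inner_smul_left (𝕜 := ℂ) (kH hw) h (conj (ev w (toL2 b)))
  refine Eq.trans ?_ h0.symm
  rw [Complex.conj_conj]
  have h1 : ⟪kH hw, toeplitz b h⟫_ℂ = ev w (mulOp b (h : L2)) := by
    rw [ev_apply, ← toeplitz_coe hb]; rfl
  rw [h1, ev_mulOp hb hw h.2]
  rfl

theorem defect_kH {b : Linf} (hb : IsHinf b) {w : ℂ} (hw : ‖w‖ < 1) (C : ℂ) :
    ∀ᵐ x ∂m, (((C • kH hw) - toeplitz b (ContinuousLinearMap.adjoint (toeplitz b) (C • kH hw)) : H2) : L2) x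
      = C * ((1 - conj (ev w (toL2 b)) * b x) * kM w x) := by
  have h1 : (((C • kH hw) - toeplitz b (ContinuousLinearMap.adjoint (toeplitz b) (C • kH hw)) : H2) : L2)
      = C • kL w - (C * conj (ev w (toL2 b))) • mulOp b (kL w) := by
    rw [map_smul, adj_kH hb hw, smul_smul, map_smul, Submodule.coe_sub, Submodule.coe_smul,
      Submodule.coe_smul, toeplitz_coe hb]
    rfl
  rw [h1]
  filter_upwards [Lp.coeFn_sub (C • kL w) ((C * conj (ev w (toL2 b))) • mulOp b (kL w)),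
    Lp.coeFn_smul C (kL w), Lp.coeFn_smul (C * conj (ev w (toL2 b))) (mulOp b (kL w)),
    mulOp_ae b (kL w), cL_ae (kM w)] with x e1 e2 e3 e4 e5
  have e6 : kL w x = kM w x := e5
  rw [e1, Pi.sub_apply, e2, e3, Pi.smul_apply, Pi.smul_apply, e4, e6, smul_eq_mul, smul_eq_mul]
  ring

theorem cap1_upper {b : Linf} (hb : IsHinf b) (hb1 : ‖b‖ ≤ 1) {w : ℂ} (hw : ‖w‖ < 1) {C : ℝ}
    (hC : 0 ≤ C) {I : Set Circ} (hI : IsOpen I)
    (h : ∀ x ∈ I, 1 ≤ C * (1 - ‖ev w (toL2 b)‖) * ‖kM w x‖) :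
    cap1 b I ≤ ENNReal.ofReal (C ^ 2 / (1 - ‖w‖ ^ 2)) := by
  obtain ⟨g', hg1, hg2, hg3⟩ := root_upper (toeplitz_norm hb1) ((C : ℂ) • kH hw)
  have hae := defect_kH hb hw (C : ℂ)
  rw [← hg2] at hae
  have h1 : cap1 b I ≤ normSq b (defectRoot b g') := by
    refine iInf₂_le (defectRoot b g') ⟨I, hI, subset_rfl, ?_⟩
    filter_upwards [hae, norm_ae_le b] with x e1 e2 hx
    have e3 : ((defectRoot b g' : H2) : L2) x = C * ((1 - conj (ev w (toL2 b)) * b x) * kM w x) := e1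
    rw [e3, norm_mul, norm_mul, Complex.norm_real, Real.norm_of_nonneg hC]
    have e4 : 1 - ‖ev w (toL2 b)‖ ≤ ‖1 - conj (ev w (toL2 b)) * b x‖ := by
      have h2 := norm_sub_norm_le (1 : ℂ) (conj (ev w (toL2 b)) * b x)
      rw [norm_mul, RCLike.norm_conj, norm_one] at h2
      have h3 : ‖ev w (toL2 b)‖ * ‖b x‖ ≤ ‖ev w (toL2 b)‖ * 1 :=
        mul_le_mul_of_nonneg_left (e2.trans hb1) (norm_nonneg _)
      linarith
    refine (h x hx).trans ?_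
    rw [mul_assoc]
    exact mul_le_mul_of_nonneg_left (mul_le_mul_of_nonneg_right e4 (norm_nonneg _)) hC
  refine h1.trans ?_
  have h2 : normSq b (defectRoot b g') ≤ ENNReal.ofReal (‖g'‖ ^ 2) :=
    iInf₂_le g' ⟨hg1, rfl⟩
  refine h2.trans (ENNReal.ofReal_le_ofReal ?_)
  have h3 := pow_le_pow_left₀ (norm_nonneg _) hg3 2
  refine h3.trans ?_
  have h4 : ‖(C : ℂ) • kH hw‖ = C * ‖kL w‖ := by
    rw [norm_smul, Complex.norm_real, Real.norm_of_nonneg hC]; rfl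
  rw [h4, mul_pow, kL_norm_sq hw, mul_one_div]

theorem cap2_lower {b b' : Linf} (hb : IsHinf b) (hb1 : ‖b‖ ≤ 1) (hb' : IsHinf b')
    (hbb' : ∀ᵐ x ∂m, b x * b' x = 1) (hb'2 : ∀ᵐ x ∂m, ‖b' x‖ ≤ 2)
    {G : C(Circ, ℂ)} (hG : G ∈ AD) {w : ℂ} (hw : ‖w‖ < 1) (hGw : 4 ≤ ‖ev w (cL G)‖)
    {I : Set Circ} (h1 : ∀ᵐ x ∂m, x ∈ I → av b x * ‖G x‖ ≤ 1) (h2 : ∀ x, x ∉ I → ‖G x‖ ≤ 1) :
    ENNReal.ofReal ((1 - ‖w‖) / 16) ≤ cap2 b I := by
  refine le_iInf₂ fun f hf => ?_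
  obtain ⟨U, hU, hIU, hfU⟩ := hf
  refine le_iInf₂ fun g hg => ?_
  obtain ⟨-, rfl⟩ := hg
  apply ENNReal.ofReal_le_ofReal
  refine lower hb hb1 hb' hbb' hb'2 hG hw hGw g ?_
  filter_upwards [h1, hfU] with x e1 e2
  by_cases hx : x ∈ I
  · exact Or.inl ⟨e2 (hIU hx), e1 hx⟩
  · exact Or.inr (h2 x hx)

end Pool.Agent.H270R3.Cap
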