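import Mathlib
import Pool.Agent.H270R3.Cap.Upper

/-!
Elementary estimates for Poisson kernels, and the two capacities of a small arc.
-/

set_option autoImplicit false

open MeasureTheory Filter
open scoped ENNReal InnerProductSpace ComplexConjugate Topology

namespace Pool.Agent.H270R3.Cap

/-- distance to the point `ζ` -/
noncomputable def cd (ζ : ℂ) (x : Circ) : ℝ := ‖zf x - ζ‖

theorem cd_nonneg (ζ : ℂ) (x : Circ) : 0 ≤ cd ζ x := norm_nonneg _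

theorem cd_continuous (ζ : ℂ) : Continuous (cd ζ) := (zf.continuous.sub continuous_const).norm

theorem cd_triangle (ζ η : ℂ) (x : Circ) : ‖ζ - η‖ ≤ cd ζ x + cd η x := by
  unfold cd
  have h : ζ - η = (zf x - η) - (zf x - ζ) := by ring
  rw [h]
  linarith [norm_sub_le (zf x - η) (zf x - ζ)]

/-- the point `(1-s) ζ` -/
noncomputable def pt (ζ : ℂ) (s : ℝ) : ℂ := ((1 - s : ℝ) : ℂ) * ζ

theorem pt_norm {ζ : ℂ} (hζ : ‖ζ‖ = 1) {s : ℝ} (hs1 : s < 1) : ‖pt ζ s‖ = 1 - s := by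
  unfold pt
  rw [norm_mul, hζ, mul_one, Complex.norm_real, Real.norm_of_nonneg (by linarith)]

theorem pt_lt {ζ : ℂ} (hζ : ‖ζ‖ = 1) {s : ℝ} (hs : 0 < s) (hs1 : s < 1) : ‖pt ζ s‖ < 1 := by
  rw [pt_norm hζ hs1]; linarith

theorem geo_id {ζ : ℂ} (hζ : ‖ζ‖ = 1) (s : ℝ) (x : Circ) :
    ‖1 - conj (pt ζ s) * zf x‖ ^ 2 = s ^ 2 + (1 - s) * cd ζ x ^ 2 := by
  unfold cd pt
  have h1 := zf_norm x
  rw [← Complex.normSq_eq_norm_sq, ← Complex.normSq_eq_norm_sq]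
  have h2 : Complex.normSq ζ = 1 := by rw [Complex.normSq_eq_norm_sq, hζ]; norm_num
  have h3 : Complex.normSq (zf x) = 1 := by rw [Complex.normSq_eq_norm_sq, h1]; norm_num
  rw [Complex.normSq_apply] at h2 h3 ⊢
  rw [Complex.normSq_apply]
  simp only [map_mul, Complex.conj_ofReal, Complex.sub_re, Complex.sub_im, Complex.mul_re,
    Complex.mul_im, Complex.conj_re, Complex.conj_im, Complex.one_re, Complex.one_im,
    Complex.ofReal_re, Complex.ofReal_im]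
  set a := (zf x).re
  set b := (zf x).im
  set c := ζ.re
  set d := ζ.im
  have e1 : (c * c + d * d) * (a * a + b * b) = 1 := by rw [h2, h3]; norm_num
  linear_combination (1 - s) ^ 2 * e1 - (1 - s) * h2 - (1 - s) * h3

theorem pk_geo {ζ : ℂ} (hζ : ‖ζ‖ = 1) {s : ℝ} (hs : 0 < s) (hs1 : s < 1) (x : Circ) :
    pk (pt ζ s) x = s * (2 - s) / (s ^ 2 + (1 - s) * cd ζ x ^ 2) := by
  rw [pk_formula (pt_lt hζ hs hs1), geo_id hζ, pt_norm hζ hs1]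
  congr 1
  ring

theorem kM_geo {ζ : ℂ} (hζ : ‖ζ‖ = 1) {s : ℝ} (hs : 0 < s) (hs1 : s < 1) (x : Circ) :
    ‖kM (pt ζ s) x‖ ^ 2 = 1 / (s ^ 2 + (1 - s) * cd ζ x ^ 2) := by
  rw [kM_apply (pt_lt hζ hs hs1), norm_inv, inv_pow, geo_id hζ, one_div]

/-- near bound -/
theorem near {ζ : ℂ} (hζ : ‖ζ‖ = 1) {δ : ℝ} (hs : 0 < δ) (hs1 : δ < 1) {x : Circ}
    (hx : cd ζ x < δ) : 1 ≤ δ * pk (pt ζ δ) x := by
  rw [pk_geo hζ hs hs1]
  have h0 := cd_nonneg ζ x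
  have h1 : cd ζ x ^ 2 ≤ δ ^ 2 := pow_le_pow_left₀ h0 hx.le 2
  have h2 : (1 - δ) * cd ζ x ^ 2 ≤ (1 - δ) * δ ^ 2 := mul_le_mul_of_nonneg_left h1 (by linarith)
  have h3 : 0 < δ ^ 2 + (1 - δ) * cd ζ x ^ 2 := by
    have : 0 ≤ (1 - δ) * cd ζ x ^ 2 := mul_nonneg (by linarith) (by positivity)
    positivity
  rw [mul_div_assoc', le_div_iff₀ h3]
  nlinarith

/-- far bound -/
theorem far {ζ : ℂ} (hζ : ‖ζ‖ = 1) {s R : ℝ} (hs : 0 < s) (hs1 : s < 1) (hR : 0 < R) (hR1 : R < 1)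
    {x : Circ} (hx : R ≤ cd ζ x) : pk (pt ζ s) x ≤ 2 * s / (R * (1 - s)) * pk (pt ζ R) x := by
  rw [pk_geo hζ hs hs1, pk_geo hζ hR hR1]
  set c := cd ζ x
  have hc : 0 < c := lt_of_lt_of_le hR hx
  have h1 : R ^ 2 ≤ c ^ 2 := pow_le_pow_left₀ hR.le hx 2
  have h3 : 0 < s ^ 2 + (1 - s) * c ^ 2 := by
    have : 0 < (1 - s) * c ^ 2 := mul_pos (by linarith) (by positivity)
    positivity
  have h4 : 0 < R ^ 2 + (1 - R) * c ^ 2 := by
    have : 0 < (1 - R) * c ^ 2 := mul_pos (by linarith) (by positivity)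
    positivity
  have h5 : 0 < 1 - s := by linarith
  have h6 : s * (2 - s) / (s ^ 2 + (1 - s) * c ^ 2) ≤ 2 * s / ((1 - s) * c ^ 2) := by
    rw [div_le_div_iff₀ h3 (by positivity)]
    have : 0 ≤ s ^ 2 := by positivity
    have h7 : s * (2 - s) ≤ 2 * s := by nlinarith
    calc s * (2 - s) * ((1 - s) * c ^ 2) ≤ 2 * s * ((1 - s) * c ^ 2) :=
          mul_le_mul_of_nonneg_right h7 (by positivity)
      _ ≤ 2 * s * (s ^ 2 + (1 - s) * c ^ 2) :=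
          mul_le_mul_of_nonneg_left (by linarith) (by positivity)
  refine h6.trans ?_
  have h8 : R / c ^ 2 ≤ R * (2 - R) / (R ^ 2 + (1 - R) * c ^ 2) := by
    rw [div_le_div_iff₀ (by positivity) h4]
    have : R * (R ^ 2 + (1 - R) * c ^ 2) ≤ R * ((2 - R) * c ^ 2) :=
      mul_le_mul_of_nonneg_left (by linarith) hR.le
    linarith
  calc 2 * s / ((1 - s) * c ^ 2) = 2 * s / (R * (1 - s)) * (R / c ^ 2) := by
        field_simp
    _ ≤ _ := mul_le_mul_of_nonneg_left h8 (by positivity)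

theorem cd_far {ζ : ℂ} (hζ : ‖ζ‖ = 1) {s δ : ℝ} (hs : 0 < s) (hs1 : s ≤ 1 / 2) (hδ : 0 < δ)
    {x : Circ} (hx : δ ≤ cd ζ x) : pk (pt ζ s) x ≤ 4 * s / δ ^ 2 := by
  rw [pk_geo hζ hs (by linarith)]
  set c := cd ζ x
  have h1 : δ ^ 2 ≤ c ^ 2 := pow_le_pow_left₀ hδ.le hx 2
  have hc : 0 < c := lt_of_lt_of_le hδ hx
  have h3 : 0 < s ^ 2 + (1 - s) * c ^ 2 := by
    have : 0 < (1 - s) * c ^ 2 := mul_pos (by linarith) (by positivity)
    positivity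
  rw [div_le_div_iff₀ h3 (by positivity)]
  have h4 : δ ^ 2 ≤ 2 * (s ^ 2 + (1 - s) * c ^ 2) := by
    have : (1 / 2) * c ^ 2 ≤ (1 - s) * c ^ 2 := mul_le_mul_of_nonneg_right (by linarith) (by positivity)
    nlinarith [sq_nonneg s]
  have h5 : s * (2 - s) ≤ 2 * s := by nlinarith
  calc s * (2 - s) * δ ^ 2 ≤ 2 * s * δ ^ 2 := mul_le_mul_of_nonneg_right h5 (by positivity)
    _ ≤ 2 * s * (2 * (s ^ 2 + (1 - s) * c ^ 2)) := mul_le_mul_of_nonneg_left h4 (by positivity)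
    _ = _ := by ring

/-- the modulus of `b` above an arc adjacent to places where `|b|` is small -/
theorem b_mu {b : Linf} (hb : IsHinf b) (hb1 : ‖b‖ ≤ 1) {ζ : ℂ} (hζ : ‖ζ‖ = 1) {δ : ℝ} (hδ : 0 < δ)
    (hδ1 : δ ≤ 1 / 100) (hA : ∀ᵐ x ∂m, δ ≤ cd ζ x → cd ζ x < 64 * δ → ‖b x‖ ≤ 3 / 4) :
    ‖ev (pt ζ (8 * δ)) (toL2 b)‖ ≤ 15 / 16 := by
  have hs : 0 < 8 * δ := by linarith
  have hs1 : 8 * δ < 1 := by linarith
  have hμ := pt_lt hζ hs hs1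
  rw [← P1 hμ (toL2_mem hb)]
  have h1 : ‖∫ x, (pk (pt ζ (8 * δ)) x : ℂ) * toL2 b x ∂m‖
      ≤ ∫ x, (3 / 4 * pk (pt ζ (8 * δ)) x
        + (1 / 16 * pk (pt ζ δ) x + 1 / 12 * pk (pt ζ (64 * δ)) x)) ∂m := by
    refine norm_integral_le_of_norm_le (((pk_integrable _).const_mul _).add
      (((pk_integrable _).const_mul _).add ((pk_integrable _).const_mul _))) ?_
    filter_upwards [hA, toL2_ae b, norm_ae_le b] with x e1 e2 e3
    rw [e2, norm_mul, Complex.norm_real, Real.norm_of_nonneg (pk_nonneg hμ x)]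
    have p0 := pk_nonneg hμ x
    have p1 := pk_nonneg (pt_lt hζ hδ (by linarith)) x
    have p2 := pk_nonneg (pt_lt hζ (s := 64 * δ) (by linarith) (by linarith)) x
    have hbx : ‖b x‖ ≤ 1 := e3.trans hb1
    have hbx0 := norm_nonneg (b x)
    have p3 : pk (pt ζ (8 * δ)) x * ‖b x‖ ≤ pk (pt ζ (8 * δ)) x :=
      mul_le_of_le_one_right p0 hbx
    rcases lt_or_ge (cd ζ x) δ with h | h
    · have h2 := near hζ hδ (by linarith) h
      have h3 := pk_le hμ x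
      rw [pt_norm hζ hs1] at h3
      have h4 : 2 / (1 - (1 - 8 * δ)) = 1 / (4 * δ) := by
        field_simp; ring
      rw [h4] at h3
      have h5 : 1 / (4 * δ) ≤ 1 / 4 * pk (pt ζ δ) x := by
        rw [div_le_iff₀ (by positivity)]
        linarith
      linarith
    · rcases lt_or_ge (cd ζ x) (64 * δ) with h' | h'
      · have h2 := e1 h h'
        have h3 : pk (pt ζ (8 * δ)) x * ‖b x‖ ≤ pk (pt ζ (8 * δ)) x * (3 / 4) :=
          mul_le_mul_of_nonneg_left h2 p0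
        linarith
      · have h2 := far hζ hs hs1 (R := 64 * δ) (by linarith) (by linarith) h'
        have h3 : 2 * (8 * δ) / (64 * δ * (1 - 8 * δ)) ≤ 1 / 3 := by
          have h5 : 0 < 1 - 8 * δ := by linarith
          rw [div_le_div_iff₀ (by positivity) (by norm_num)]
          nlinarith
        have h4 := mul_le_mul_of_nonneg_right h3 p2
        linarith
  refine h1.trans ?_
  have q1 : ∫ x, (3 / 4 * pk (pt ζ (8 * δ)) x
        + (1 / 16 * pk (pt ζ δ) x + 1 / 12 * pk (pt ζ (64 * δ)) x)) ∂m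
      = ∫ x, 3 / 4 * pk (pt ζ (8 * δ)) x ∂m
        + ∫ x, (1 / 16 * pk (pt ζ δ) x + 1 / 12 * pk (pt ζ (64 * δ)) x) ∂m :=
    integral_add ((pk_integrable _).const_mul _)
      (((pk_integrable _).const_mul _).add ((pk_integrable _).const_mul _))
  have q2 : ∫ x, (1 / 16 * pk (pt ζ δ) x + 1 / 12 * pk (pt ζ (64 * δ)) x) ∂m
      = ∫ x, 1 / 16 * pk (pt ζ δ) x ∂m + ∫ x, 1 / 12 * pk (pt ζ (64 * δ)) x ∂m :=
    integral_add ((pk_integrable _).const_mul _) ((pk_integrable _).const_mul _)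
  rw [q1, q2, integral_const_mul, integral_const_mul, integral_const_mul, int_pk hμ,
    int_pk (pt_lt hζ hδ (by linarith)),
    int_pk (pt_lt hζ (s := 64 * δ) (by linarith) (by linarith))]
  norm_num

/-- the small arc -/
def Bz (ζ : ℂ) (δ : ℝ) : Set Circ := {x | cd ζ x < δ}

theorem Bz_open (ζ : ℂ) (δ : ℝ) : IsOpen (Bz ζ δ) := isOpen_lt (cd_continuous ζ) continuous_const

theorem cap1_arc {b : Linf} (hb : IsHinf b) (hb1 : ‖b‖ ≤ 1) {ζ : ℂ} (hζ : ‖ζ‖ = 1) {δ : ℝ}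
    (hδ : 0 < δ) (hδ1 : δ ≤ 1 / 100)
    (hA : ∀ᵐ x ∂m, δ ≤ cd ζ x → cd ζ x < 64 * δ → ‖b x‖ ≤ 3 / 4) :
    cap1 b (Bz ζ δ) ≤ ENNReal.ofReal (2592 * δ) := by
  have hs : 0 < 8 * δ := by linarith
  have hs1 : 8 * δ < 1 := by linarith
  have hμ := pt_lt hζ hs hs1
  have hbm := b_mu hb hb1 hζ hδ hδ1 hA
  refine (cap1_upper hb hb1 hμ (C := 144 * δ) (by positivity) (Bz_open ζ δ) ?_).trans ?_
  · intro x hx
    have hx' : cd ζ x < δ := hx
    have h1 : 1 / (9 * δ) ≤ ‖kM (pt ζ (8 * δ)) x‖ := by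
      refine (pow_le_pow_iff_left₀ (by positivity) (norm_nonneg _) two_ne_zero).1 ?_
      rw [kM_geo hζ hs hs1, div_pow, one_pow]
      have h2 : cd ζ x ^ 2 ≤ δ ^ 2 := pow_le_pow_left₀ (cd_nonneg _ _) hx'.le 2
      have h3 : 0 ≤ (1 - 8 * δ) * cd ζ x ^ 2 := mul_nonneg (by linarith) (by positivity)
      apply div_le_div_of_nonneg_left (by norm_num) (by positivity)
      have h4 : (1 - 8 * δ) * cd ζ x ^ 2 ≤ 1 * δ ^ 2 :=
        mul_le_mul (by linarith) h2 (by positivity) (by norm_num)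
      nlinarith [sq_nonneg δ]
    have h2 : 144 * δ * (1 / 16) * (1 / (9 * δ)) = 1 := by field_simp; norm_num
    have h3 : (0 : ℝ) ≤ 1 - ‖ev (pt ζ (8 * δ)) (toL2 b)‖ := by linarith
    have h4 : (1 / 16 : ℝ) ≤ 1 - ‖ev (pt ζ (8 * δ)) (toL2 b)‖ := by linarith
    calc (1 : ℝ) = 144 * δ * (1 / 16) * (1 / (9 * δ)) := h2.symm
      _ ≤ _ := mul_le_mul (mul_le_mul_of_nonneg_left h4 (by positivity)) h1 (by positivity)
        (mul_nonneg (by positivity) h3)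
  · apply ENNReal.ofReal_le_ofReal
    rw [pt_norm hζ hs1]
    have h1 : 1 - (1 - 8 * δ) ^ 2 = 8 * δ * (2 - 8 * δ) := by ring
    rw [h1, div_le_iff₀ (by apply mul_pos hs; linarith)]
    nlinarith [mul_pos hδ hδ]

/-- the test function for the lower bound -/
noncomputable def pG (ζ : ℂ) (ρ κ L : ℝ) : C(Circ, ℂ) :=
  (L : ℂ) • ((ρ : ℂ) • ((2 : ℂ) • kM (pt ζ ρ) - 1) - (κ : ℂ) • 1)

theorem pG_mem {ζ : ℂ} (hζ : ‖ζ‖ = 1) {ρ : ℝ} (hρ : 0 < ρ) (hρ1 : ρ < 1) (κ L : ℝ) :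
    pG ζ ρ κ L ∈ AD := by
  unfold pG
  have h1 : kM (pt ζ ρ) ∈ AD := kL_mem (pt_lt hζ hρ hρ1)
  exact AD.smul_mem (AD.sub_mem (AD.smul_mem (AD.sub_mem (AD.smul_mem h1 _) AD.one_mem) _)
    (AD.smul_mem AD.one_mem _)) _

theorem pG_re {ζ : ℂ} (hζ : ‖ζ‖ = 1) {ρ : ℝ} (hρ : 0 < ρ) (hρ1 : ρ < 1) (κ L : ℝ) (x : Circ) :
    (pG ζ ρ κ L x).re = L * (ρ * pk (pt ζ ρ) x - κ) := by
  have h1 := pk_eq (pt_lt hζ hρ hρ1) x
  have h2 : pk (pt ζ ρ) x = 2 * (kM (pt ζ ρ) x).re - 1 := by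
    have h3 := congrArg Complex.re h1
    simp only [Complex.ofReal_re, Complex.sub_re, Complex.add_re, Complex.conj_re,
      Complex.one_re] at h3
    rw [h3]; ring
  rw [h2]
  unfold pG
  simp only [ContinuousMap.smul_apply, ContinuousMap.sub_apply, ContinuousMap.one_apply,
    smul_eq_mul, Complex.mul_re, Complex.sub_re, Complex.sub_im, Complex.mul_im, Complex.one_re,
    Complex.one_im, Complex.ofReal_re, Complex.ofReal_im, Complex.re_ofNat, Complex.im_ofNat]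
  ring

theorem pG_ev {ζ : ℂ} (hζ : ‖ζ‖ = 1) {ρ d : ℝ} (hρ : 0 < ρ) (hρ1 : ρ < 1) (hd : 0 < d)
    (hd1 : d < 1) (κ L : ℝ) :
    ev (pt ζ d) (cL (pG ζ ρ κ L))
      = ((L * (ρ * (2 / (1 - (1 - ρ) * (1 - d)) - 1) - κ) : ℝ) : ℂ) := by
  have h1 := ev_one (pt_lt hζ hd hd1)
  have h2 : ev (pt ζ d) (cL (kM (pt ζ ρ))) = (1 - conj (pt ζ ρ) * pt ζ d)⁻¹ :=
    ev_kL (pt_lt hζ hd hd1) (pt_lt hζ hρ hρ1)
  have h3 : conj (pt ζ ρ) * pt ζ d = (((1 - ρ) * (1 - d) : ℝ) : ℂ) := by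
    unfold pt
    have h4 : conj ζ * ζ = 1 := by
      rw [mul_comm, Complex.mul_conj, Complex.normSq_eq_norm_sq, hζ]; norm_num
    rw [map_mul, Complex.conj_ofReal, Complex.ofReal_mul]
    linear_combination (((1 - ρ : ℝ) : ℂ) * ((1 - d : ℝ) : ℂ)) * h4
  unfold pG
  rw [map_smul, map_sub, map_smul, map_sub, map_smul, map_smul, map_smul, map_sub, map_smul,
    map_sub, map_smul, map_smul, h1, h2, h3]
  push_cast
  simp only [smul_eq_mul]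
  ring

/-- lower bound of the second capacity of a small arc on which `1 - |b|²` is very small -/
theorem cap2_arc {b b' : Linf} (hb : IsHinf b) (hb1 : ‖b‖ ≤ 1) (hb' : IsHinf b')
    (hbb' : ∀ᵐ x ∂m, b x * b' x = 1) (hb'2 : ∀ᵐ x ∂m, ‖b' x‖ ≤ 2) {ζ : ℂ} (hζ : ‖ζ‖ = 1) {δ M : ℝ}
    (hδ : 0 < δ) (hM : 2 ≤ M) (hMδ : M * δ ≤ 1)
    (h1 : ∀ᵐ x ∂m, x ∈ Bz ζ δ → av b x ≤ Real.exp (-(8 * M ^ 2))) :
    ENNReal.ofReal ((M ^ 2 - 1) * δ / (128 * M)) ≤ cap2 b (Bz ζ δ) := by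
  have hM0 : 0 < M := by linarith
  set ρ : ℝ := δ / (8 * M) with hρdef
  have hρ : 0 < ρ := by positivity
  have hδ1 : δ ≤ 1 / 2 := by nlinarith
  have hρ1 : ρ ≤ 1 / 32 := by
    rw [hρdef, div_le_iff₀ (by positivity)]
    nlinarith
  set d : ℝ := (M ^ 2 - 1) * ρ with hddef
  have hM2 : 3 ≤ M ^ 2 - 1 := by nlinarith
  have hd : 0 < d := by positivity
  have hMρ : M ^ 2 * ρ = M * δ / 8 := by rw [hρdef]; field_simp
  have hd1 : d < 1 := by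
    have : d = M ^ 2 * ρ - ρ := by rw [hddef]; ring
    rw [this, hMρ]; linarith
  have hw := pt_lt hζ hd hd1
  have hmem : eC (pG ζ ρ (1 / (4 * M ^ 2)) (4 * M ^ 2)) ∈ AD :=
    eC_mem (pG_mem hζ hρ (by linarith) _ _)
  have hGx : ∀ x, ‖eC (pG ζ ρ (1 / (4 * M ^ 2)) (4 * M ^ 2)) x‖
      = Real.exp (4 * M ^ 2 * (ρ * pk (pt ζ ρ) x - 1 / (4 * M ^ 2))) := by
    intro x
    rw [eC_apply, Complex.norm_exp, pG_re hζ hρ (by linarith)]
  have hfin : (1 - ‖pt ζ d‖) / 16 = (M ^ 2 - 1) * δ / (128 * M) := by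
    rw [pt_norm hζ hd1, hddef, hρdef]; field_simp; ring
  rw [← hfin]
  refine cap2_lower hb hb1 hb' hbb' hb'2 hmem hw ?_ ?_ ?_
  · rw [ev_eC hw (pG_mem hζ hρ (by linarith) _ _), pG_ev hζ hρ (by linarith) hd hd1,
      Complex.norm_exp, Complex.ofReal_re]
    have h2 : 3 ≤ 4 * M ^ 2 * (ρ * (2 / (1 - (1 - ρ) * (1 - d)) - 1) - 1 / (4 * M ^ 2)) := by
      have h3 : 1 - (1 - ρ) * (1 - d) ≤ M ^ 2 * ρ := by
        have : d = M ^ 2 * ρ - ρ := by rw [hddef]; ring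
        nlinarith [mul_pos hρ hd]
      have h4 : 0 < 1 - (1 - ρ) * (1 - d) := by nlinarith
      have h5 : 2 / (M ^ 2 * ρ) ≤ 2 / (1 - (1 - ρ) * (1 - d)) :=
        div_le_div_of_nonneg_left (by norm_num) h4 h3
      have h6 : ρ * (2 / (M ^ 2 * ρ) - 1) ≤ ρ * (2 / (1 - (1 - ρ) * (1 - d)) - 1) :=
        mul_le_mul_of_nonneg_left (by linarith) hρ.le
      have h7 : 4 * M ^ 2 * (ρ * (2 / (M ^ 2 * ρ) - 1) - 1 / (4 * M ^ 2)) = 7 - 4 * (M ^ 2 * ρ) := by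
        field_simp; ring
      have h8 : 4 * M ^ 2 * (ρ * (2 / (M ^ 2 * ρ) - 1) - 1 / (4 * M ^ 2))
          ≤ 4 * M ^ 2 * (ρ * (2 / (1 - (1 - ρ) * (1 - d)) - 1) - 1 / (4 * M ^ 2)) :=
        mul_le_mul_of_nonneg_left (by linarith) (by positivity)
      rw [h7, hMρ] at h8
      linarith
    have h3 := Real.add_one_le_exp
      (4 * M ^ 2 * (ρ * (2 / (1 - (1 - ρ) * (1 - d)) - 1) - 1 / (4 * M ^ 2)))
    linarith
  · filter_upwards [h1] with x e1 hx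
    have h2 := e1 hx
    rw [hGx]
    have h3 : 4 * M ^ 2 * (ρ * pk (pt ζ ρ) x - 1 / (4 * M ^ 2)) ≤ 8 * M ^ 2 := by
      have h4 := pk_le (pt_lt hζ hρ (by linarith)) x
      rw [pt_norm hζ (by linarith)] at h4
      have h5 : 2 / (1 - (1 - ρ)) = 2 / ρ := by congr 1; ring
      rw [h5] at h4
      have h6 : ρ * pk (pt ζ ρ) x ≤ ρ * (2 / ρ) := mul_le_mul_of_nonneg_left h4 hρ.le
      have h7 : ρ * (2 / ρ) = 2 := by field_simp
      have h8 : 0 < 1 / (4 * M ^ 2) := by positivity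
      have h9 : ρ * pk (pt ζ ρ) x - 1 / (4 * M ^ 2) ≤ 2 := by linarith
      have := mul_le_mul_of_nonneg_left h9 (show 0 ≤ 4 * M ^ 2 by positivity)
      linarith
    calc av b x * Real.exp (4 * M ^ 2 * (ρ * pk (pt ζ ρ) x - 1 / (4 * M ^ 2)))
        ≤ Real.exp (-(8 * M ^ 2)) * Real.exp (8 * M ^ 2) :=
          mul_le_mul h2 (Real.exp_le_exp.2 h3) (Real.exp_pos _).le (Real.exp_pos _).le
      _ = 1 := by rw [← Real.exp_add, neg_add_cancel, Real.exp_zero]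
  · intro x hx
    rw [hGx, Real.exp_le_one_iff]
    have hx' : δ ≤ cd ζ x := not_lt.1 hx
    have h2 := cd_far hζ hρ (by linarith) hδ hx'
    have h3 : ρ * pk (pt ζ ρ) x ≤ ρ * (4 * ρ / δ ^ 2) := mul_le_mul_of_nonneg_left h2 hρ.le
    have h4 : ρ * (4 * ρ / δ ^ 2) ≤ 1 / (4 * M ^ 2) := by
      rw [hρdef]
      have : δ / (8 * M) * (4 * (δ / (8 * M)) / δ ^ 2) = 1 / (16 * M ^ 2) := by
        field_simp; ring
      rw [this]
      apply div_le_div_of_nonneg_left (by norm_num) (by positivity)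
      nlinarith [sq_nonneg M]
    apply mul_nonpos_of_nonneg_of_nonpos (by positivity)
    linarith

end Pool.Agent.H270R3.Cap
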