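import Mathlib
import Pool.Agent.H270R3.Cap.Geo

/-!
The function `b` and the failure of comparability.
-/

set_option autoImplicit false

open MeasureTheory Filter
open scoped ENNReal NNReal InnerProductSpace ComplexConjugate Topology

namespace Pool.Agent.H270R3.Cap

/-- `t_n = 2^{-n}` -/
noncomputable def tn (n : ℕ) : ℝ := (1 / 2) ^ n

theorem tn_pos (n : ℕ) : 0 < tn n := by unfold tn; positivity

theorem tn_le (n : ℕ) : tn n ≤ 1 := pow_le_one₀ (by norm_num) (by norm_num)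

theorem tn_half {j k : ℕ} (h : j < k) : tn k ≤ tn j / 2 := by
  unfold tn
  have h1 : ((1 : ℝ) / 2) ^ k ≤ (1 / 2) ^ (j + 1) :=
    pow_le_pow_of_le_one (by norm_num) (by norm_num) h
  rw [pow_succ] at h1
  linarith

theorem tn_sep {j k : ℕ} (h : j ≠ k) : (tn j + tn k) / 4 ≤ |tn j - tn k| := by
  rcases lt_or_gt_of_ne h with h | h
  · have h1 := tn_half h
    have h2 := tn_pos j
    rw [abs_of_nonneg (by linarith)]
    linarith
  · have h1 := tn_half h
    have h2 := tn_pos k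
    rw [abs_sub_comm, abs_of_nonneg (by linarith)]
    linarith

/-- the centres of the arcs -/
noncomputable def zn (n : ℕ) : ℂ := (1 + tn n * Complex.I) / (1 - tn n * Complex.I)

theorem den_norm_sq (t : ℝ) : ‖(1 - t * Complex.I : ℂ)‖ ^ 2 = 1 + t ^ 2 := by
  rw [← Complex.normSq_eq_norm_sq, Complex.normSq_apply]
  simp; ring

theorem num_norm_sq (t : ℝ) : ‖(1 + t * Complex.I : ℂ)‖ ^ 2 = 1 + t ^ 2 := by
  rw [← Complex.normSq_eq_norm_sq, Complex.normSq_apply]
  simp; ring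

theorem den_ne (t : ℝ) : (1 - t * Complex.I : ℂ) ≠ 0 := by
  intro h
  have := den_norm_sq t
  rw [h, norm_zero] at this
  nlinarith [sq_nonneg t]

theorem zn_norm (n : ℕ) : ‖zn n‖ = 1 := by
  unfold zn
  rw [norm_div]
  have h : ‖(1 + tn n * Complex.I : ℂ)‖ = ‖(1 - tn n * Complex.I : ℂ)‖ := by
    refine (pow_left_inj₀ (norm_nonneg _) (norm_nonneg _) two_ne_zero).1 ?_
    rw [den_norm_sq, num_norm_sq]
  rw [h, div_self (norm_ne_zero_iff.2 (den_ne _))]

theorem zn_sep (j k : ℕ) : |tn j - tn k| ≤ ‖zn j - zn k‖ := by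
  unfold zn
  have h1 : (1 + tn j * Complex.I) / (1 - tn j * Complex.I)
      - (1 + tn k * Complex.I) / (1 - tn k * Complex.I)
      = (2 * Complex.I * ((tn j - tn k : ℝ) : ℂ))
        / ((1 - tn j * Complex.I) * (1 - tn k * Complex.I)) := by
    rw [div_sub_div _ _ (den_ne (tn j)) (den_ne (tn k))]
    congr 1
    push_cast
    ring
  rw [h1, norm_div, norm_mul, norm_mul, norm_mul, Complex.norm_I, Complex.norm_real,
    Real.norm_eq_abs]
  have hd : ∀ i, ‖(1 - tn i * Complex.I : ℂ)‖ ^ 2 ≤ 2 := by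
    intro i
    rw [den_norm_sq]
    have := pow_le_one₀ (n := 2) (tn_pos i).le (tn_le i)
    linarith
  have hj := hd j
  have hk := hd k
  have hpj := norm_pos_iff.2 (den_ne (tn j))
  have hpk := norm_pos_iff.2 (den_ne (tn k))
  have hprod : ‖(1 - tn j * Complex.I : ℂ)‖ * ‖(1 - tn k * Complex.I : ℂ)‖ ≤ 2 := by
    nlinarith [sq_nonneg (‖(1 - tn j * Complex.I : ℂ)‖ - ‖(1 - tn k * Complex.I : ℂ)‖)]
  rw [le_div_iff₀ (by positivity)]
  have h2 : ‖(2 : ℂ)‖ = 2 := by norm_num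
  rw [h2]
  have := abs_nonneg (tn j - tn k)
  nlinarith

/-- the radii of the arcs -/
noncomputable def dn (n : ℕ) : ℝ := tn n / 1000

theorem dn_pos (n : ℕ) : 0 < dn n := by unfold dn; have := tn_pos n; positivity

theorem dn_le (n : ℕ) : dn n ≤ 1 / 1000 := by unfold dn; have := tn_le n; linarith

/-- the `n`-th arc -/
def Bn (n : ℕ) : Set Circ := Bz (zn n) (dn n)

theorem ring_disj {n k : ℕ} {x : Circ} (h1 : dn n ≤ cd (zn n) x) (h2 : cd (zn n) x < 64 * dn n) :
    x ∉ Bn k := by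
  intro hx
  have hx' : cd (zn k) x < dn k := hx
  by_cases hk : n = k
  · subst hk; linarith
  · have h3 := (tn_sep hk).trans ((zn_sep n k).trans (cd_triangle (zn n) (zn k) x))
    have h4 := tn_pos n
    have h5 := tn_pos k
    unfold dn at *
    linarith

theorem meas_Bz {ζ : ℂ} (hζ : ‖ζ‖ = 1) {δ : ℝ} (hδ : 0 < δ) (hδ1 : δ < 1) :
    m (Bz ζ δ) ≤ ENNReal.ofReal δ := by
  have h0 := pt_lt hζ hδ hδ1
  have h1 : ∫⁻ x, (Bz ζ δ).indicator (fun _ => (1 : ℝ≥0∞)) x ∂m
      ≤ ∫⁻ x, ENNReal.ofReal (δ * pk (pt ζ δ) x) ∂m := by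
    refine lintegral_mono fun x => ?_
    by_cases hx : x ∈ Bz ζ δ
    · rw [Set.indicator_of_mem hx]
      have h2 := near hζ hδ hδ1 hx
      rw [← ENNReal.ofReal_one]
      exact ENNReal.ofReal_le_ofReal h2
    · rw [Set.indicator_of_notMem hx]; exact zero_le
  rw [lintegral_indicator (Bz_open ζ δ).measurableSet, lintegral_const, Measure.restrict_apply_univ,
    one_mul, ← ofReal_integral_eq_lintegral_ofReal ((pk_integrable _).const_mul δ)
      (Eventually.of_forall fun x => mul_nonneg hδ.le (pk_nonneg h0 x)), integral_const_mul,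
    int_pk h0, mul_one] at h1
  exact h1

/-- the exponent -/
noncomputable def sE (x : Circ) : ℝ≥0∞ :=
  ∑' n : ℕ, (Bn n).indicator (fun _ => ENNReal.ofReal (16 * ((n : ℝ) + 2) ^ 2)) x

theorem sE_meas : Measurable sE :=
  Measurable.ennreal_tsum fun _ => measurable_const.indicator (Bz_open _ _).measurableSet

theorem sum_aux : Summable fun n : ℕ => 16 * ((n : ℝ) + 2) ^ 2 * dn n := by
  have h1 : Summable fun n : ℕ => ((n : ℝ)) ^ 2 * (1 / 2 : ℝ) ^ n := by
    apply summable_pow_mul_geometric_of_norm_lt_one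
    norm_num
  have h2 : Summable fun n : ℕ => (((n + 2 : ℕ) : ℝ)) ^ 2 * (1 / 2 : ℝ) ^ (n + 2) :=
    (summable_nat_add_iff 2).2 h1
  refine (h2.mul_left (16 * 4 / 1000)).congr fun n => ?_
  unfold dn tn
  push_cast
  rw [pow_add]
  ring

theorem sE_int : ∫⁻ x, sE x ∂m ≠ ∞ := by
  unfold sE
  have h0 : ∀ n : ℕ, AEMeasurable (fun x => (Bn n).indicator
      (fun _ => ENNReal.ofReal (16 * ((n : ℝ) + 2) ^ 2)) x) m := fun n =>
    (measurable_const.indicator (Bz_open _ _).measurableSet).aemeasurable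
  rw [lintegral_tsum h0]
  have h1 : ∀ n : ℕ, ∫⁻ x, (Bn n).indicator (fun _ => ENNReal.ofReal (16 * ((n : ℝ) + 2) ^ 2)) x ∂m
      ≤ ENNReal.ofReal (16 * ((n : ℝ) + 2) ^ 2 * dn n) := by
    intro n
    unfold Bn
    rw [lintegral_indicator (Bz_open _ _).measurableSet, lintegral_const,
      Measure.restrict_apply_univ,
      ENNReal.ofReal_mul (p := 16 * ((n : ℝ) + 2) ^ 2) (q := dn n) (by positivity)]
    have h2 := meas_Bz (zn_norm n) (dn_pos n) (by have := dn_le n; linarith)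
    exact mul_le_mul_right h2 _
  refine ne_top_of_le_ne_top ?_ (ENNReal.tsum_le_tsum h1)
  rw [← ENNReal.ofReal_tsum_of_nonneg (fun n => by have := dn_pos n; positivity) sum_aux]
  exact ENNReal.ofReal_ne_top

/-- the exponent as a real function -/
noncomputable def sR (x : Circ) : ℝ := (sE x).toReal

theorem sR_nonneg (x : Circ) : 0 ≤ sR x := ENNReal.toReal_nonneg

theorem sR_meas : Measurable sR := sE_meas.ennreal_toReal

theorem sR_int : Integrable sR m :=
  integrable_toReal_of_lintegral_ne_top sE_meas.aemeasurable sE_int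

theorem sR_ge (n : ℕ) : ∀ᵐ x ∂m, x ∈ Bn n → 16 * ((n : ℝ) + 2) ^ 2 ≤ sR x := by
  filter_upwards [ae_lt_top sE_meas sE_int] with x hx hxn
  have h1 : ENNReal.ofReal (16 * ((n : ℝ) + 2) ^ 2) ≤ sE x := by
    have h2 := ENNReal.le_tsum (f := fun n : ℕ =>
      (Bn n).indicator (fun _ => ENNReal.ofReal (16 * ((n : ℝ) + 2) ^ 2)) x) n
    simp only [Set.indicator_of_mem hxn] at h2
    exact h2
  exact (ENNReal.ofReal_le_iff_le_toReal hx.ne).1 h1

theorem sR_zero {n : ℕ} {x : Circ} (h1 : dn n ≤ cd (zn n) x) (h2 : cd (zn n) x < 64 * dn n) :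
    sR x = 0 := by
  unfold sR sE
  have h3 : ∀ k : ℕ, (Bn k).indicator (fun _ => ENNReal.ofReal (16 * ((k : ℝ) + 2) ^ 2)) x = 0 :=
    fun k => Set.indicator_of_notMem (ring_disj h1 h2) _
  simp only [h3, tsum_zero, ENNReal.toReal_zero]

/-- the logarithm of the modulus -/
noncomputable def vR (x : Circ) : ℝ := 1 / 2 * Real.log (1 - Real.exp (-sR x) / 2)

theorem one_sub_bounds (x : Circ) :
    1 / 2 ≤ 1 - Real.exp (-sR x) / 2 ∧ 1 - Real.exp (-sR x) / 2 ≤ 1 := by
  have h1 : Real.exp (-sR x) ≤ 1 := Real.exp_le_one_iff.2 (by linarith [sR_nonneg x])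
  have h2 := Real.exp_pos (-sR x)
  constructor <;> linarith

theorem vR_meas : Measurable vR := by
  unfold vR
  have h1 := sR_meas
  fun_prop

theorem vR_le (x : Circ) : |vR x| ≤ 1 := by
  unfold vR
  obtain ⟨h1, h2⟩ := one_sub_bounds x
  have h3 : Real.log (1 - Real.exp (-sR x) / 2) ≤ 0 := Real.log_nonpos (by linarith) h2
  have h4 : Real.log (1 / 2) ≤ Real.log (1 - Real.exp (-sR x) / 2) :=
    Real.log_le_log (by norm_num) h1
  have h5 : Real.log (1 / 2) = -Real.log 2 := by rw [one_div, Real.log_inv]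
  have h6 := Real.log_two_lt_d9
  rw [abs_le]
  constructor <;> linarith

theorem exp_vR_sq (x : Circ) : Real.exp (vR x) ^ 2 = 1 - Real.exp (-sR x) / 2 := by
  have h1 : Real.exp (vR x) ^ 2 = Real.exp (2 * vR x) := by
    rw [← Real.exp_nat_mul]; norm_num
  rw [h1]
  have h2 : 2 * vR x = Real.log (1 - Real.exp (-sR x) / 2) := by unfold vR; ring
  rw [h2, Real.exp_log (by linarith [(one_sub_bounds x).1])]

theorem zf_surj {ζ : ℂ} (hζ : ‖ζ‖ = 1) : ∃ x : Circ, zf x = ζ := by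
  refine ⟨((Complex.arg ζ : ℝ) : Circ), ?_⟩
  show fourier 1 ((Complex.arg ζ : ℝ) : Circ) = ζ
  rw [fourier_coe_apply]
  have h1 : (2 * Real.pi * Complex.I * ((1 : ℤ) : ℂ) * (Complex.arg ζ : ℂ)) / ((2 * Real.pi : ℝ) : ℂ)
      = Complex.arg ζ * Complex.I := by
    have : (Real.pi : ℂ) ≠ 0 := Complex.ofReal_ne_zero.2 Real.pi_ne_zero
    push_cast
    field_simp
  rw [h1]
  have h2 := Complex.norm_mul_exp_arg_mul_I ζ
  rw [hζ] at h2
  simpa using h2

theorem Bn_pos (n : ℕ) : 0 < m (Bn n) := by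
  obtain ⟨x, hx⟩ := zf_surj (zn_norm n)
  refine (Bz_open _ _).measure_pos m ⟨x, ?_⟩
  show cd (zn n) x < dn n
  unfold cd
  rw [hx, sub_self, norm_zero]
  exact dn_pos n

theorem main : ∃ b : Linf, IsHinf b ∧ ‖b‖ = 1 ∧
    (∀ᵐ x ∂m, ‖b x‖ ^ 2 = 1 - Real.exp (-sR x) / 2) ∧
    Integrable (fun x => Real.log (1 - ‖b x‖ ^ 2)) m ∧
    ∀ A : ℝ≥0, ∃ E : Set Circ, (A : ℝ≥0∞) * cap1 b E < cap2 b E := by
  obtain ⟨b, b', hb, hb', hbv, hbb'⟩ := exists_outer vR vR_meas vR_le
  have hb2 : ∀ᵐ x ∂m, ‖b x‖ ^ 2 = 1 - Real.exp (-sR x) / 2 := by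
    filter_upwards [hbv] with x hx
    rw [hx, exp_vR_sq]
  have hble : ∀ᵐ x ∂m, ‖b x‖ ≤ 1 := by
    filter_upwards [hb2] with x hx
    refine (pow_le_pow_iff_left₀ (norm_nonneg _) zero_le_one two_ne_zero).1 ?_
    rw [hx, one_pow]
    exact (one_sub_bounds x).2
  have hb1 : ‖b‖ ≤ 1 := by
    have h1 := Lp.norm_le_of_ae_bound zero_le_one hble
    simpa using h1
  have hb'2 : ∀ᵐ x ∂m, ‖b' x‖ ≤ 2 := by
    filter_upwards [hb2, hbb'] with x h1 h2
    have h3 := congrArg (fun z => ‖z‖) h2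
    simp only [norm_mul, norm_one] at h3
    have h4 := (one_sub_bounds x).1
    rw [← h1] at h4
    have h5 : 1 / 2 ≤ ‖b x‖ := by
      refine (pow_le_pow_iff_left₀ (by norm_num) (norm_nonneg _) two_ne_zero).1 ?_
      norm_num at h4 ⊢
      linarith
    have h6 := norm_nonneg (b' x)
    nlinarith
  refine ⟨b, hb, le_antisymm hb1 ?_, hb2, ?_, ?_⟩
  · -- the norm is at least one
    by_contra hlt
    push Not at hlt
    have hlt2 : ‖b‖ ^ 2 < 1 := by
      have := norm_nonneg b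
      nlinarith
    obtain ⟨n, hn⟩ := exists_nat_gt (1 / (1 - ‖b‖ ^ 2))
    have h3 : ∀ᵐ x ∂m, x ∉ Bn n := by
      filter_upwards [sR_ge n, hb2, norm_ae_le b] with x e1 e2 e3 hx
      have e4 := e1 hx
      have e5 : ‖b x‖ ^ 2 ≤ ‖b‖ ^ 2 := pow_le_pow_left₀ (norm_nonneg _) e3 2
      rw [e2] at e5
      have hpos : 0 < 1 - ‖b‖ ^ 2 := by linarith
      have hn0 : (0 : ℝ) ≤ n := Nat.cast_nonneg n
      have e6 : Real.exp (-sR x) ≤ 1 / (1 + n) := by
        rw [Real.exp_neg, ← one_div]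
        apply one_div_le_one_div_of_le (by positivity)
        have := Real.add_one_le_exp (sR x)
        nlinarith
      have e7 : 1 / (1 + (n : ℝ)) < 1 - ‖b‖ ^ 2 := by
        rw [div_lt_iff₀ (by positivity)]
        rw [div_lt_iff₀ hpos] at hn
        nlinarith
      have := Real.exp_pos (-sR x)
      linarith
    have h4 : m (Bn n) = 0 := by
      rw [ae_iff] at h3
      simpa using h3
    exact (Bn_pos n).ne' h4
  · -- not extreme
    have h1 : Integrable (fun x => -sR x - Real.log 2) m := sR_int.neg.sub (integrable_const _)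
    refine h1.congr ?_
    filter_upwards [hb2] with x hx
    rw [hx]
    have : 1 - (1 - Real.exp (-sR x) / 2) = Real.exp (-sR x) / 2 := by ring
    rw [this, Real.log_div (Real.exp_pos _).ne' two_ne_zero, Real.log_exp]
  · intro A
    obtain ⟨n, hn⟩ := exists_nat_gt (331776 * (A : ℝ))
    refine ⟨Bn n, ?_⟩
    have hA0 : (0 : ℝ) ≤ A := A.2
    have hd := dn_pos n
    have hd1 := dn_le n
    have hn0 : (0 : ℝ) ≤ n := Nat.cast_nonneg n
    have hM : (2 : ℝ) ≤ (n : ℝ) + 2 := by linarith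
    have hMδ : ((n : ℝ) + 2) * dn n ≤ 1 := by
      unfold dn tn
      have h1 : (n : ℝ) < 2 ^ n := by exact_mod_cast Nat.lt_two_pow_self
      have h2 : ((n : ℝ) + 2) * (1 / 2) ^ n ≤ 3 := by
        rw [one_div, inv_pow, ← div_eq_mul_inv, div_le_iff₀ (by positivity)]
        have : (1 : ℝ) ≤ 2 ^ n := one_le_pow₀ (by norm_num)
        linarith
      linarith
    have c1 := cap1_arc hb hb1 (zn_norm n) hd (by linarith) (by
      filter_upwards [hb2] with x e1 e2 e3
      rw [sR_zero e2 e3, neg_zero, Real.exp_zero] at e1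
      refine (pow_le_pow_iff_left₀ (norm_nonneg _) (by norm_num) two_ne_zero).1 ?_
      rw [e1]; norm_num)
    have c2 := cap2_arc hb hb1 hb' hbb' hb'2 (zn_norm n) hd hM hMδ (by
      filter_upwards [hb2, sR_ge n] with x e1 e2 hx
      have e3 := e2 hx
      unfold av
      rw [e1]
      refine Real.sqrt_le_iff.2 ⟨(Real.exp_pos _).le, ?_⟩
      have e5 : Real.exp (-(8 * ((n : ℝ) + 2) ^ 2)) ^ 2 = Real.exp (-(16 * ((n : ℝ) + 2) ^ 2)) := by
        rw [← Real.exp_nat_mul]; congr 1; push_cast; ring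
      rw [e5]
      have e4 : Real.exp (-sR x) ≤ Real.exp (-(16 * ((n : ℝ) + 2) ^ 2)) := by
        apply Real.exp_le_exp.2
        linarith
      have := Real.exp_pos (-sR x)
      linarith)
    calc (A : ℝ≥0∞) * cap1 b (Bn n) ≤ (A : ℝ≥0∞) * ENNReal.ofReal (2592 * dn n) :=
          mul_le_mul_right c1 _
      _ = ENNReal.ofReal (A * (2592 * dn n)) := by
          rw [ENNReal.ofReal_mul hA0, ENNReal.ofReal_coe_nnreal]
      _ < ENNReal.ofReal ((((n : ℝ) + 2) ^ 2 - 1) * dn n / (128 * ((n : ℝ) + 2))) := by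
          rw [ENNReal.ofReal_lt_ofReal_iff (by
            have : (0 : ℝ) < ((n : ℝ) + 2) ^ 2 - 1 := by nlinarith
            positivity)]
          rw [lt_div_iff₀ (by positivity)]
          have h1 : (A : ℝ) * (2592 * dn n) * (128 * ((n : ℝ) + 2))
              = (331776 * A * ((n : ℝ) + 2)) * dn n := by ring
          rw [h1]
          apply mul_lt_mul_of_pos_right _ hd
          nlinarith
      _ ≤ cap2 b (Bn n) := c2

end Pool.Agent.H270R3.Cap
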