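import Mathlib
import Pool.Agent.H270R3.Cap.Main

/-!
The constant function belongs to `H(b)`, so both capacities are finite.
-/

set_option autoImplicit false

open MeasureTheory Filter
open scoped ENNReal NNReal InnerProductSpace ComplexConjugate Topology

namespace Pool.Agent.H270R3.Cap

theorem zero_lt : ‖(0 : ℂ)‖ < 1 := by rw [norm_zero]; norm_num

/-- partial sums of the exponent -/
noncomputable def sN (N : ℕ) (x : Circ) : ℝ≥0∞ :=
  ∑ n ∈ Finset.range N, (Bn n).indicator (fun _ => ENNReal.ofReal (16 * ((n : ℝ) + 2) ^ 2)) x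

theorem sN_meas (N : ℕ) : Measurable (sN N) := by
  unfold sN
  exact Finset.measurable_fun_sum _ fun n _ => measurable_const.indicator (Bz_open _ _).measurableSet

theorem sN_tendsto (x : Circ) : Tendsto (fun N => sN N x) atTop (𝓝 (sE x)) :=
  ENNReal.tendsto_nat_tsum _

theorem sN_le (N : ℕ) (x : Circ) : sN N x ≤ ENNReal.ofReal
    (∑ n ∈ Finset.range N, 16 * ((n : ℝ) + 2) ^ 2 * (dn n * pk (pt (zn n) (dn n)) x)) := by
  have hp : ∀ n, 0 ≤ pk (pt (zn n) (dn n)) x := fun n =>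
    pk_nonneg (pt_lt (zn_norm n) (dn_pos n) (by have := dn_le n; linarith)) x
  unfold sN
  rw [ENNReal.ofReal_sum_of_nonneg fun n _ => by
    have := dn_pos n; have := hp n; positivity]
  refine Finset.sum_le_sum fun n _ => ?_
  by_cases hx : x ∈ Bn n
  · rw [Set.indicator_of_mem hx]
    apply ENNReal.ofReal_le_ofReal
    have h1 := near (zn_norm n) (dn_pos n) (by have := dn_le n; linarith) hx
    exact le_mul_of_one_le_right (by positivity) h1
  · rw [Set.indicator_of_notMem hx]; exact zero_le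

/-- the logarithm of the minorant -/
noncomputable def pN (N : ℕ) : C(Circ, ℂ) :=
  ∑ n ∈ Finset.range N, ((-(8 * ((n : ℝ) + 2) ^ 2 * dn n) : ℝ) : ℂ) •
    ((2 : ℂ) • kM (pt (zn n) (dn n)) - 1)

theorem pN_mem (N : ℕ) : pN N ∈ AD := by
  unfold pN
  refine AD.sum_mem fun n _ => AD.smul_mem (AD.sub_mem (AD.smul_mem ?_ _) AD.one_mem) _
  exact kL_mem (pt_lt (zn_norm n) (dn_pos n) (by have := dn_le n; linarith))

theorem pN_re (N : ℕ) (x : Circ) : (pN N x).re
    = -(∑ n ∈ Finset.range N, 16 * ((n : ℝ) + 2) ^ 2 * (dn n * pk (pt (zn n) (dn n)) x)) / 2 := by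
  unfold pN
  rw [ContinuousMap.sum_apply, Complex.re_sum, neg_div, Finset.sum_div, ← Finset.sum_neg_distrib]
  refine Finset.sum_congr rfl fun n _ => ?_
  have h1 := pk_eq (pt_lt (zn_norm n) (dn_pos n) (by have := dn_le n; linarith)) x
  have h2 : pk (pt (zn n) (dn n)) x = 2 * (kM (pt (zn n) (dn n)) x).re - 1 := by
    have h3 := congrArg Complex.re h1
    simp only [Complex.ofReal_re, Complex.sub_re, Complex.add_re, Complex.conj_re,
      Complex.one_re] at h3
    rw [h3]; ring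
  rw [h2, ContinuousMap.smul_apply, ContinuousMap.sub_apply, ContinuousMap.smul_apply,
    ContinuousMap.one_apply, smul_eq_mul, Complex.re_ofReal_mul, smul_eq_mul, Complex.sub_re,
    Complex.one_re]
  have h4 : ((2 : ℂ) * kM (pt (zn n) (dn n)) x).re = 2 * (kM (pt (zn n) (dn n)) x).re := by
    simp [Complex.mul_re]
  rw [h4]; ring

theorem pN_ev (N : ℕ) : ev 0 (cL (pN N))
    = ((-(∑ n ∈ Finset.range N, 8 * ((n : ℝ) + 2) ^ 2 * dn n) : ℝ) : ℂ) := by
  unfold pN
  rw [map_sum, map_sum, ← Finset.sum_neg_distrib, Complex.ofReal_sum]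
  refine Finset.sum_congr rfl fun n _ => ?_
  have h2 : ev 0 (cL (kM (pt (zn n) (dn n)))) = 1 := by
    have h3 : ev 0 (kL (pt (zn n) (dn n))) = (1 - conj (pt (zn n) (dn n)) * 0)⁻¹ :=
      ev_kL zero_lt (pt_lt (zn_norm n) (dn_pos n) (by have := dn_le n; linarith))
    rw [mul_zero, sub_zero, inv_one] at h3
    exact h3
  rw [map_smul, map_smul, map_sub, map_sub, map_smul, map_smul, h2, ev_one zero_lt]
  simp only [smul_eq_mul]
  push_cast
  ring

theorem toL2_cI (f : C(Circ, ℂ)) : toL2 (cI f) = cL f := by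
  apply Lp.ext
  filter_upwards [toL2_ae (cI f), cI_ae f, cL_ae f] with x h1 h2 h3
  rw [h1, h2, h3]

/-- the total mass of the exponent -/
noncomputable def St : ℝ := ∑' n : ℕ, 16 * ((n : ℝ) + 2) ^ 2 * dn n

theorem szego {h : L2} (hh : h ∈ H2) :
    Real.exp (-St) * ‖ev 0 h‖ ^ 2 ≤ ∫ x, Real.exp (-sR x) * ‖h x‖ ^ 2 ∂m := by
  have hN : ∀ N : ℕ, Real.exp (-St) * ‖ev 0 h‖ ^ 2
      ≤ ∫ x, Real.exp (-(sN N x).toReal) * ‖h x‖ ^ 2 ∂m := by
    intro N
    have hmem : eC (pN N) ∈ AD := eC_mem (pN_mem N)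
    have h1 := ev_le zero_lt (mulOp (cI (eC (pN N))) h)
    rw [ev_mulOp (cI_hinf hmem) zero_lt hh, toL2_cI, ev_eC zero_lt (pN_mem N), pN_ev, norm_zero,
      sub_zero, div_one, norm_mul, Complex.norm_exp, Complex.ofReal_re, L2_norm_sq, mul_pow] at h1
    have h2 : Real.exp (-St) ≤ Real.exp (-(∑ n ∈ Finset.range N, 8 * ((n : ℝ) + 2) ^ 2 * dn n)) ^ 2 := by
      rw [← Real.exp_nat_mul]
      apply Real.exp_le_exp.2
      have h3 : ∑ n ∈ Finset.range N, 16 * ((n : ℝ) + 2) ^ 2 * dn n ≤ St :=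
        sum_aux.sum_le_tsum _ fun n _ => by have := dn_pos n; positivity
      have h4 : ∑ n ∈ Finset.range N, 16 * ((n : ℝ) + 2) ^ 2 * dn n
          = 2 * ∑ n ∈ Finset.range N, 8 * ((n : ℝ) + 2) ^ 2 * dn n := by
        rw [Finset.mul_sum]
        refine Finset.sum_congr rfl fun n _ => by ring
      push_cast
      linarith
    refine (mul_le_mul_of_nonneg_right h2 (by positivity)).trans (h1.trans ?_)
    refine integral_mono_ae (L2_sq_integrable _) ?_ ?_
    · refine Integrable.mono' (L2_sq_integrable h) ?_ (Eventually.of_forall fun x => ?_)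
      · exact ((Real.measurable_exp.comp (sN_meas N).ennreal_toReal.neg).aestronglyMeasurable).mul
          (L2_sq_integrable h).aestronglyMeasurable
      · rw [norm_mul, Real.norm_of_nonneg (Real.exp_pos _).le, Real.norm_of_nonneg (by positivity)]
        refine mul_le_of_le_one_left (by positivity) ?_
        rw [Real.exp_le_one_iff]
        linarith [ENNReal.toReal_nonneg (a := sN N x)]
    · filter_upwards [mulOp_ae (cI (eC (pN N))) h, cI_ae (eC (pN N))] with x e1 e2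
      show ‖mulOp (cI (eC (pN N))) h x‖ ^ 2 ≤ Real.exp (-(sN N x).toReal) * ‖h x‖ ^ 2
      rw [e1, e2, norm_mul, mul_pow, eC_apply, Complex.norm_exp, pN_re]
      apply mul_le_mul_of_nonneg_right _ (by positivity)
      rw [← Real.exp_nat_mul]
      apply Real.exp_le_exp.2
      have h3 := ENNReal.toReal_le_of_le_ofReal (Finset.sum_nonneg fun n _ => by
        have := dn_pos n
        have := pk_nonneg (pt_lt (zn_norm n) (dn_pos n) (by have := dn_le n; linarith)) x
        positivity) (sN_le N x)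
      push_cast
      linarith
  have hlim : Tendsto (fun N : ℕ => ∫ x, Real.exp (-(sN N x).toReal) * ‖h x‖ ^ 2 ∂m) atTop
      (𝓝 (∫ x, Real.exp (-sR x) * ‖h x‖ ^ 2 ∂m)) := by
    refine tendsto_integral_of_dominated_convergence (fun x => ‖h x‖ ^ 2) (fun N => ?_)
      (L2_sq_integrable h) (fun N => Eventually.of_forall fun x => ?_) ?_
    · exact ((Real.measurable_exp.comp (sN_meas N).ennreal_toReal.neg).aestronglyMeasurable).mul
        (L2_sq_integrable h).aestronglyMeasurable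
    · rw [norm_mul, Real.norm_of_nonneg (Real.exp_pos _).le, Real.norm_of_nonneg (by positivity)]
      refine mul_le_of_le_one_left (by positivity) ?_
      rw [Real.exp_le_one_iff]
      linarith [ENNReal.toReal_nonneg (a := sN N x)]
    · filter_upwards [ae_lt_top sE_meas sE_int] with x hx
      have h1 : Tendsto (fun N => (sN N x).toReal) atTop (𝓝 (sR x)) :=
        (ENNReal.tendsto_toReal hx.ne).comp (sN_tendsto x)
      exact ((Real.continuous_exp.tendsto _).comp h1.neg).mul_const _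
  exact ge_of_tendsto' hlim hN

theorem adj_norm_le {b : Linf} (hb : IsHinf b) (h : H2) :
    ‖ContinuousLinearMap.adjoint (toeplitz b) h‖ ≤ ‖mulOp b (h : L2)‖ := by
  set u := ContinuousLinearMap.adjoint (toeplitz b) h with hu
  set bh : L2 := mulOp b ((memLp_conj (Lp.memLp (h : L2))).toLp _) with hbh
  have hbhae : bh =ᵐ[m] fun x => b x * conj ((h : L2) x) := by
    filter_upwards [mulOp_ae b ((memLp_conj (Lp.memLp (h : L2))).toLp _),
      (memLp_conj (Lp.memLp (h : L2))).coeFn_toLp] with x e1 e2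
    rw [hbh, e1, e2]
  set cbh : L2 := (memLp_conj (Lp.memLp bh)).toLp _ with hcbh
  have hcbhae : cbh =ᵐ[m] fun x => conj (b x) * (h : L2) x := by
    filter_upwards [hbhae, (memLp_conj (Lp.memLp bh)).coeFn_toLp] with x e1 e2
    rw [hcbh, e2, e1, map_mul, Complex.conj_conj]
  have h1 : ⟪u, u⟫_ℂ = ⟪cbh, (u : L2)⟫_ℂ := by
    have h2 : ⟪u, u⟫_ℂ = ⟪h, toeplitz b u⟫_ℂ := by
      conv_lhs => rw [hu]
      rw [ContinuousLinearMap.adjoint_inner_left]
    have h3 : ⟪h, toeplitz b u⟫_ℂ = ⟪(h : L2), mulOp b (u : L2)⟫_ℂ := by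
      rw [← toeplitz_coe hb]; rfl
    rw [h2, h3, L2.inner_def, L2.inner_def]
    refine integral_congr_ae ?_
    filter_upwards [hcbhae, mulOp_ae b (u : L2)] with x e1 e2
    rw [e1, e2, RCLike.inner_apply, RCLike.inner_apply, map_mul, Complex.conj_conj]
    ring
  have h2 : ‖cbh‖ = ‖mulOp b (h : L2)‖ := by
    refine (pow_left_inj₀ (norm_nonneg _) (norm_nonneg _) two_ne_zero).1 ?_
    rw [L2_norm_sq, L2_norm_sq]
    refine integral_congr_ae ?_
    filter_upwards [hcbhae, mulOp_ae b (h : L2)] with x e1 e2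
    rw [e1, e2, norm_mul, norm_mul, RCLike.norm_conj]
  have h3 : ‖u‖ ^ 2 ≤ ‖cbh‖ * ‖u‖ := by
    have h4 := norm_inner_le_norm (𝕜 := ℂ) cbh (u : L2)
    have h5 : ⟪u, u⟫_ℂ = ((‖u‖ : ℝ) : ℂ) ^ 2 := inner_self_eq_norm_sq_to_K (𝕜 := ℂ) u
    rw [← h1, h5, norm_pow, Complex.norm_real, norm_norm] at h4
    exact h4
  rw [h2] at h3
  by_contra hcon
  push Not at hcon
  have h7 : 0 < ‖u‖ := lt_of_le_of_lt (norm_nonneg _) hcon
  nlinarith

theorem one_mem {b : Linf} (hb : IsHinf b) (hb1 : ‖b‖ ≤ 1)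
    (hb2 : ∀ᵐ x ∂m, ‖b x‖ ^ 2 = 1 - Real.exp (-sR x) / 2) :
    ∃ g : H2, g ∈ (LinearMap.ker (defectRoot b).toLinearMap)ᗮ ∧
      defectRoot b g = kH zero_lt := by
  set A := defectRoot b with hA
  have hT := toeplitz_norm hb1
  have key : ∀ h : H2, ‖⟪kH zero_lt, h⟫_ℂ‖ ≤ Real.sqrt (2 * Real.exp St) * ‖A h‖ := by
    intro h
    have h1 := szego h.2
    have h2 : ‖mulOp (aI b) (h : L2)‖ ^ 2 ≤ ‖A h‖ ^ 2 := by
      rw [a_norm hb1]
      have h3 : ‖A h‖ ^ 2 = ‖h‖ ^ 2 - ‖ContinuousLinearMap.adjoint (toeplitz b) h‖ ^ 2 :=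
        root_norm_sq hT h
      have h4 := pow_le_pow_left₀ (norm_nonneg _) (adj_norm_le hb h) 2
      have h5 : ‖(h : L2)‖ = ‖h‖ := rfl
      rw [h3, h5]
      linarith
    have h3 : ∫ x, Real.exp (-sR x) * ‖(h : L2) x‖ ^ 2 ∂m = 2 * ‖mulOp (aI b) (h : L2)‖ ^ 2 := by
      rw [L2_norm_sq, ← integral_const_mul]
      refine integral_congr_ae ?_
      filter_upwards [mulOp_ae (aI b) (h : L2), aI_ae b, hb2] with x e1 e2 e3
      rw [e1, e2, norm_mul, Complex.norm_real, Real.norm_of_nonneg (av_nonneg b x), mul_pow]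
      have h4 : av b x ^ 2 = Real.exp (-sR x) / 2 := by
        unfold av
        rw [e3, Real.sq_sqrt]
        · ring
        · have := Real.exp_pos (-sR x)
          linarith
      rw [h4]; ring
    rw [h3] at h1
    have h4 : ‖⟪kH zero_lt, h⟫_ℂ‖ ^ 2 ≤ (Real.sqrt (2 * Real.exp St) * ‖A h‖) ^ 2 := by
      rw [mul_pow, Real.sq_sqrt (by positivity)]
      have h5 : ⟪kH zero_lt, h⟫_ℂ = ev 0 (h : L2) := rfl
      rw [h5]
      have h6 : Real.exp St * (Real.exp (-St) * ‖ev 0 (h : L2)‖ ^ 2) = ‖ev 0 (h : L2)‖ ^ 2 := by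
        rw [← mul_assoc, ← Real.exp_add, add_neg_cancel, Real.exp_zero, one_mul]
      rw [← h6]
      have h7 := mul_le_mul_of_nonneg_left (h1.trans (mul_le_mul_of_nonneg_left h2 zero_le_two))
        (Real.exp_pos St).le
      linarith
    exact (pow_le_pow_iff_left₀ (norm_nonneg _) (by positivity) two_ne_zero).1 h4
  obtain ⟨φ, hφ1, hφ2⟩ := exists_functional A.toLinearMap (innerSL ℂ (kH zero_lt)).toLinearMap _
    (Real.sqrt_nonneg _) key
  set g := (InnerProductSpace.toDual ℂ H2).symm φ with hg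
  have hAg : A g = kH zero_lt := by
    apply ext_inner_right ℂ
    intro h
    have h1 : ⟪A g, h⟫_ℂ = ⟪g, A h⟫_ℂ := opRoot_inner _ g h
    rw [h1, hg, InnerProductSpace.toDual_symm_apply]
    exact hφ2 h
  have hcl : IsClosed ((LinearMap.ker A.toLinearMap : Submodule ℂ H2) : Set H2) :=
    A.isClosed_ker
  have : CompleteSpace (LinearMap.ker A.toLinearMap : Submodule ℂ H2) := hcl.completeSpace_coe
  obtain ⟨y, hy, z, hz, hyz⟩ := Submodule.exists_add_mem_mem_orthogonal
    (K := (LinearMap.ker A.toLinearMap : Submodule ℂ H2)) g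
  refine ⟨z, hz, ?_⟩
  have hy' : A y = 0 := hy
  rw [← hAg, hyz, map_add, hy', zero_add]

theorem cap2_fin {b : Linf} (hb : IsHinf b) (hb1 : ‖b‖ ≤ 1)
    (hb2 : ∀ᵐ x ∂m, ‖b x‖ ^ 2 = 1 - Real.exp (-sR x) / 2) (E : Set Circ) : cap2 b E < ∞ := by
  obtain ⟨g, hg1, hg2⟩ := one_mem hb hb1 hb2
  have h1 : cap2 b E ≤ normSq b (kH zero_lt) := by
    refine iInf₂_le (kH zero_lt) ⟨Set.univ, isOpen_univ, Set.subset_univ _, ?_⟩
    filter_upwards [cL_ae (kM 0)] with x e1 _
    have e2 : ((kH zero_lt : H2) : L2) x = kM 0 x := e1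
    rw [e2, kM_apply zero_lt, map_zero, zero_mul, sub_zero, inv_one, norm_one]
  have h2 : normSq b (kH zero_lt) ≤ ENNReal.ofReal (‖g‖ ^ 2) := iInf₂_le g ⟨hg1, hg2⟩
  exact (h1.trans h2).trans_lt ENNReal.ofReal_lt_top

end Pool.Agent.H270R3.Cap
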