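import Mathlib
import Pool.Agent.H270R3.Cap.Fin

/-!
Hardy spaces of the circle, de Branges–Rovnyak spaces and their two capacities.

The unit circle is `AddCircle (2 * π)` (the point `x` stands for `e^{ix}`) with normalised
Lebesgue measure `m`. Functions of `H²` and `H^∞` are identified with their boundary functions.
-/

set_option autoImplicit false

open MeasureTheory
open scoped ENNReal NNReal InnerProductSpace ComplexConjugate

namespace Pool.Agent.H270R3.Cap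

/-- The Hardy space `H²`, as a Hilbert space. -/
def HH : Type := ↥H2

noncomputable instance instHH1 : NormedAddCommGroup HH := Submodule.normedAddCommGroup H2

noncomputable instance instHH2 : InnerProductSpace ℂ HH := Submodule.innerProductSpace H2

theorem complete_HH : CompleteSpace HH := inferInstanceAs (CompleteSpace ↥H2)

instance instHH3 : CompleteSpace HH := complete_HH

/-- The boundary function of `f ∈ H²`. -/
noncomputable def bd (f : HH) : Circ → ℂ := fun x => (f.1 : L2) x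

/-- `T` is the Toeplitz operator `T_b` on `H²`, `b` being a bounded function. -/
def IsToeplitz (b : Circ → ℂ) (T : HH →L[ℂ] HH) : Prop :=
  ∀ f g : HH, ⟪g, T f⟫_ℂ = ∫ x, conj (bd g x) * (b x * bd f x) ∂m

/-- The operator `(I - T T^*)^{1/2}` (`star T` is the adjoint of `T`). -/
noncomputable def defect {H : Type*} [NormedAddCommGroup H] [InnerProductSpace ℂ H]
    [CompleteSpace H] (T : H →L[ℂ] H) : H →L[ℂ] H :=
  opRoot (1 - T * star T)

/-- The square of the range norm of `f` in `A H`: it is `‖g‖²` for the `g` orthogonal to the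
kernel of `A` with `A g = f`, and `∞` if `f` is not in the range of `A`. -/
noncomputable def rangeNormSq {H : Type*} [NormedAddCommGroup H] [InnerProductSpace ℂ H]
    (A : H →L[ℂ] H) (f : H) : ℝ≥0∞ :=
  ⨅ (g : H) (_ : g ∈ (LinearMap.ker A.toLinearMap)ᗮ ∧ A g = f), ENNReal.ofReal (‖g‖ ^ 2)

/-- The capacity `c_{b,1}(E) = inf {‖f‖²_{H(b)} : |f| ≥ 1 a.e. on some open U ⊇ E}`, where
`T = T_b`. -/
noncomputable def c1 (T : HH →L[ℂ] HH) (E : Set Circ) : ℝ≥0∞ :=
  ⨅ (f : HH) (_ : ∃ U : Set Circ, IsOpen U ∧ E ⊆ U ∧ ∀ᵐ x ∂m, x ∈ U → 1 ≤ ‖bd f x‖),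
    rangeNormSq (defect T) f

/-- The capacity `c_{b,2}(E) = inf {‖f‖²_{H(b)} : |f| = 1 a.e. on some open U ⊇ E}`, where
`T = T_b`. -/
noncomputable def c2 (T : HH →L[ℂ] HH) (E : Set Circ) : ℝ≥0∞ :=
  ⨅ (f : HH) (_ : ∃ U : Set Circ, IsOpen U ∧ E ⊆ U ∧ ∀ᵐ x ∂m, x ∈ U → ‖bd f x‖ = 1),
    rangeNormSq (defect T) f

theorem main2 : ∃ b : Circ → ℂ, Measurable b ∧ (∀ n : ℤ, n < 0 → fourierCoeff b n = 0) ∧
    eLpNorm b ∞ m = 1 ∧ (∀ᵐ x ∂m, ‖b x‖ < 1) ∧
    Integrable (fun x => Real.log (1 - ‖b x‖ ^ 2)) m ∧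
    ∃ T : HH →L[ℂ] HH, IsToeplitz b T ∧
      ∀ A : ℝ≥0, ∃ E : Set Circ, (A : ℝ≥0∞) * c1 T E < c2 T E ∧ c2 T E < ∞ := by
  obtain ⟨b, hb, hb1, hb2, hb3, hA⟩ := main
  refine ⟨b, (Lp.stronglyMeasurable b).measurable, hb, ?_, ?_, hb3, toeplitz b, ?_, fun A => ?_⟩
  · rw [Lp.norm_def] at hb1
    have h1 : eLpNorm b ∞ m ≠ ∞ := Lp.eLpNorm_ne_top b
    rw [← ENNReal.ofReal_toReal h1, hb1, ENNReal.ofReal_one]
  · filter_upwards [hb2] with x hx
    have h1 := Real.exp_pos (-sR x)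
    have h2 : ‖(b : Circ → ℂ) x‖ ^ 2 < 1 := by rw [hx]; linarith
    nlinarith [norm_nonneg ((b : Circ → ℂ) x)]
  · intro f g
    have h1 : (⟪g, toeplitz b f⟫_ℂ : ℂ) = ⟪(g.1 : L2), mulOp b (f.1 : L2)⟫_ℂ := by
      rw [← toeplitz_coe hb]; rfl
    refine Eq.trans h1 ?_
    rw [L2.inner_def]
    refine integral_congr_ae ?_
    filter_upwards [mulOp_ae b (f.1 : L2)] with x hx
    rw [hx, RCLike.inner_apply]
    unfold bd
    ring
  · obtain ⟨E, hE⟩ := hA A
    exact ⟨E, hE, cap2_fin hb hb1.le hb2 E⟩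

end Pool.Agent.H270R3.Cap
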